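import Mathlib

/-!
Square-summable functions on the integers and the discrete Schroedinger
difference expression `(h φ)(n) = φ(n+1) + φ(n-1) + v n * φ n - E * φ n`.
-/

open scoped ENNReal BigOperators
open Filter Topology

namespace Pool.Agent.Lib.MP_940d9d_mp

/-- The difference expression `φ(n+1) + φ(n-1) + v(n) φ(n) - E φ(n)`. -/
def dop (v : ℤ → ℝ) (E : ℝ) (φ : ℤ → ℝ) : ℤ → ℝ :=
  fun n => φ (n + 1) + φ (n - 1) + v n * φ n - E * φ n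

/-- Square summability. -/
def Sq (φ : ℤ → ℝ) : Prop := Summable (fun n => φ n ^ 2)

/-- The squared `ℓ²` norm. -/
noncomputable def n2 (φ : ℤ → ℝ) : ℝ := ∑' n, φ n ^ 2

/-- The squared `ℓ²` norm in extended nonnegative reals. -/
noncomputable def eN (φ : ℤ → ℝ) : ℝ≥0∞ := ∑' n, ENNReal.ofReal (φ n ^ 2)

lemma n2_nonneg (φ : ℤ → ℝ) : 0 ≤ n2 φ := tsum_nonneg fun _ => sq_nonneg _

lemma eN_eq {φ : ℤ → ℝ} (h : Sq φ) : eN φ = ENNReal.ofReal (n2 φ) := by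
  unfold eN n2
  rw [ENNReal.ofReal_tsum_of_nonneg (fun _ => sq_nonneg _) h]

lemma sq_iff_eN {φ : ℤ → ℝ} : Sq φ ↔ eN φ ≠ ⊤ := by
  constructor
  · intro h; rw [eN_eq h]; exact ENNReal.ofReal_ne_top
  · intro h
    have := ENNReal.summable_toReal h
    refine this.congr ?_
    intro n
    rw [ENNReal.toReal_ofReal (sq_nonneg _)]

lemma Sq.shift {φ : ℤ → ℝ} (h : Sq φ) (t : ℤ) : Sq (fun n => φ (n + t)) := by
  unfold Sq at *
  exact (Equiv.addRight t).summable_iff.mpr h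

lemma n2_shift (φ : ℤ → ℝ) (t : ℤ) : n2 (fun n => φ (n + t)) = n2 φ := by
  unfold n2
  exact (Equiv.addRight t).tsum_eq (fun n => φ n ^ 2)

lemma eN_shift (φ : ℤ → ℝ) (t : ℤ) : eN (fun n => φ (n + t)) = eN φ := by
  unfold eN
  exact (Equiv.addRight t).tsum_eq (fun n => ENNReal.ofReal (φ n ^ 2))

lemma Sq.add {φ ψ : ℤ → ℝ} (h : Sq φ) (k : Sq ψ) : Sq (fun n => φ n + ψ n) := by
  unfold Sq at *
  refine Summable.of_nonneg_of_le (fun _ => sq_nonneg _) (fun n => ?_)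
    ((h.mul_left 2).add (k.mul_left 2))
  nlinarith [sq_nonneg (φ n - ψ n)]

lemma Sq.const_mul {φ : ℤ → ℝ} (h : Sq φ) (a : ℝ) : Sq (fun n => a * φ n) := by
  unfold Sq at *
  refine (h.mul_left (a ^ 2)).congr (fun n => ?_)
  ring

lemma n2_const_mul (φ : ℤ → ℝ) (a : ℝ) : n2 (fun n => a * φ n) = a ^ 2 * n2 φ := by
  unfold n2
  rw [← tsum_mul_left]
  congr 1; ext n; ring

lemma Sq.bdd_mul {φ : ℤ → ℝ} (h : Sq φ) {w : ℤ → ℝ} {B : ℝ} (hw : ∀ n, |w n| ≤ B) :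
    Sq (fun n => w n * φ n) := by
  unfold Sq at *
  refine Summable.of_nonneg_of_le (fun _ => sq_nonneg _) (fun n => ?_) (h.mul_left (B ^ 2))
  have h1 : (w n) ^ 2 ≤ B ^ 2 := by
    have := hw n
    rw [← sq_abs (w n)]
    exact pow_le_pow_left₀ (abs_nonneg _) this 2
  calc (w n * φ n) ^ 2 = (w n) ^ 2 * (φ n) ^ 2 := by ring
    _ ≤ B ^ 2 * φ n ^ 2 := mul_le_mul_of_nonneg_right h1 (sq_nonneg _)

lemma Sq.sub {φ ψ : ℤ → ℝ} (h : Sq φ) (k : Sq ψ) : Sq (fun n => φ n - ψ n) := by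
  have := h.add (k.const_mul (-1))
  refine Summable.congr this (fun n => ?_)
  ring

lemma Sq.dop {φ : ℤ → ℝ} (h : Sq φ) {v : ℤ → ℝ} {B : ℝ} (hv : ∀ n, |v n| ≤ B) (E : ℝ) :
    Sq (dop v E φ) := by
  have h1 := h.shift 1
  have h2 := h.shift (-1)
  have h3 := (h1.add h2).add (h.bdd_mul hv)
  have h4 := h3.sub (h.const_mul E)
  exact h4

lemma n2_mono {φ ψ : ℤ → ℝ} (h : ∀ n, φ n ^ 2 ≤ ψ n ^ 2) (hφ : Sq φ) (hψ : Sq ψ) :
    n2 φ ≤ n2 ψ := Summable.tsum_le_tsum h hφ hψ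

lemma le_n2 {φ : ℤ → ℝ} (h : Sq φ) (n : ℤ) : φ n ^ 2 ≤ n2 φ :=
  h.le_tsum n (fun _ _ => sq_nonneg _)

lemma n2_add_le {φ ψ : ℤ → ℝ} (h : Sq φ) (k : Sq ψ) :
    n2 (fun n => φ n + ψ n) ≤ 2 * n2 φ + 2 * n2 ψ := by
  unfold n2
  rw [← tsum_mul_left, ← tsum_mul_left, ← (h.mul_left 2).tsum_add (k.mul_left 2)]
  refine Summable.tsum_le_tsum (fun n => ?_) (h.add k) ((h.mul_left 2).add (k.mul_left 2))
  nlinarith [sq_nonneg (φ n - ψ n)]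

/-- Spectral gap of the expression at energy `E`: `κ ‖φ‖² ≤ ‖(h_v - E) φ‖²`. -/
def Gap (v : ℤ → ℝ) (E κ : ℝ) : Prop := ∀ φ : ℤ → ℝ, Sq φ → κ * n2 φ ≤ n2 (dop v E φ)

lemma dop_energy (v : ℤ → ℝ) (E E' : ℝ) (φ : ℤ → ℝ) :
    dop v E φ = fun n => dop v E' φ n + (E' - E) * φ n := by
  ext n; unfold dop; ring

lemma Gap.energy {v : ℤ → ℝ} {B : ℝ} (hv : ∀ n, |v n| ≤ B) {E E' κ : ℝ} (h : Gap v E κ)
    (hE : (E' - E) ^ 2 ≤ κ / 4) : Gap v E' (κ / 4) := by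
  intro φ hφ
  have h1 := h φ hφ
  have h2 : n2 (dop v E φ) ≤ 2 * n2 (dop v E' φ) + 2 * ((E' - E) ^ 2 * n2 φ) := by
    rw [dop_energy v E E', ← n2_const_mul]
    exact n2_add_le (hφ.dop hv E') (hφ.const_mul _)
  have h3 : (E' - E) ^ 2 * n2 φ ≤ κ / 4 * n2 φ :=
    mul_le_mul_of_nonneg_right hE (n2_nonneg φ)
  nlinarith

end Pool.Agent.Lib.MP_940d9d_mp
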