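import Pool.Agent.Lib.MP_940d9d_mp.Local

/-!
Compactness, uniqueness of square-summable solutions, and the non-resonance lemma.
-/

open scoped ENNReal BigOperators
open Filter Topology

namespace Pool.Agent.Lib.MP_940d9d_mp

lemma Sq.of_finset_le {ψ : ℤ → ℝ} {C : ℝ} (h : ∀ s : Finset ℤ, ∑ n ∈ s, ψ n ^ 2 ≤ C) :
    Sq ψ ∧ n2 ψ ≤ C := by
  have hs : Sq ψ := summable_of_sum_le (fun _ => sq_nonneg _) h
  exact ⟨hs, hs.tsum_le_of_sum_le h⟩

/-- Compactness: a bounded sequence of approximate solutions has a subsequence converging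
pointwise to a square-summable solution. -/
lemma compactness {v : ℕ → ℤ → ℝ} {w : ℤ → ℝ} (hv : ∀ n, Tendsto (fun j => v j n) atTop (𝓝 (w n)))
    {e : ℕ → ℝ} {E : ℝ} (he : Tendsto e atTop (𝓝 E)) {φ : ℕ → ℤ → ℝ} (hs : ∀ j, Sq (φ j))
    (h1 : ∀ j, n2 (φ j) ≤ 1)
    (hop : ∀ n, Tendsto (fun j => dop (v j) (e j) (φ j) n) atTop (𝓝 0)) :
    ∃ (ψ : ℤ → ℝ) (s : ℕ → ℕ), StrictMono s ∧ (∀ n, Tendsto (fun j => φ (s j) n) atTop (𝓝 (ψ n))) ∧
      Sq ψ ∧ n2 ψ ≤ 1 ∧ ∀ n, dop w E ψ n = 0 := by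
  have hK : IsCompact (Set.pi Set.univ (fun _ : ℤ => Set.Icc (-1 : ℝ) 1)) :=
    isCompact_univ_pi (fun _ => isCompact_Icc)
  have hmem : ∀ j, φ j ∈ Set.pi Set.univ (fun _ : ℤ => Set.Icc (-1 : ℝ) 1) := by
    intro j n _
    have := (le_n2 (hs j) n).trans (h1 j)
    rw [Set.mem_Icc, ← abs_le]
    exact (sq_le_one_iff_abs_le_one _).mp this
  obtain ⟨ψ, _, s, hs1, hs2⟩ := hK.tendsto_subseq hmem
  have hpt : ∀ n, Tendsto (fun j => φ (s j) n) atTop (𝓝 (ψ n)) := by
    intro n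
    exact (tendsto_pi_nhds.mp hs2) n
  refine ⟨ψ, s, hs1, hpt, ?_⟩
  have hfin : ∀ F : Finset ℤ, ∑ n ∈ F, ψ n ^ 2 ≤ 1 := by
    intro F
    have ht : Tendsto (fun j => ∑ n ∈ F, φ (s j) n ^ 2) atTop (𝓝 (∑ n ∈ F, ψ n ^ 2)) :=
      tendsto_finsetSum _ (fun n _ => (hpt n).pow 2)
    refine le_of_tendsto ht (Eventually.of_forall fun j => ?_)
    exact ((hs (s j)).sum_le_tsum F (fun _ _ => sq_nonneg _)).trans (h1 (s j))
  obtain ⟨hq1, hq2⟩ := Sq.of_finset_le hfin
  refine ⟨hq1, hq2, ?_⟩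
  intro n
  have t1 : Tendsto (fun j => dop (v (s j)) (e (s j)) (φ (s j)) n) atTop (𝓝 0) :=
    (hop n).comp hs1.tendsto_atTop
  have t2 : Tendsto (fun j => dop (v (s j)) (e (s j)) (φ (s j)) n) atTop (𝓝 (dop w E ψ n)) := by
    unfold dop
    exact (((hpt (n + 1)).add (hpt (n - 1))).add
      (((hv n).comp hs1.tendsto_atTop).mul (hpt n))).sub
      ((he.comp hs1.tendsto_atTop).mul (hpt n))
  exact tendsto_nhds_unique t2 t1

/-- A solution of the homogeneous equation vanishing at two consecutive sites is zero. -/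
lemma sol_eq_zero {v : ℤ → ℝ} {E : ℝ} {φ : ℤ → ℝ} (h : ∀ n, dop v E φ n = 0) {m : ℤ}
    (h0 : φ m = 0) (h1 : φ (m + 1) = 0) : ∀ n, φ n = 0 := by
  have up : ∀ k : ℕ, φ (m + k) = 0 ∧ φ (m + k + 1) = 0 := by
    intro k
    induction k with
    | zero => simpa using ⟨h0, h1⟩
    | succ k ih =>
      refine ⟨by push_cast; rw [← add_assoc]; exact ih.2, ?_⟩
      have := h (m + k + 1)
      unfold dop at this
      rw [ih.2] at this
      have e1 : m + (k : ℤ) + 1 - 1 = m + k := by ring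
      rw [e1, ih.1] at this
      have e2 : m + ((k + 1 : ℕ) : ℤ) + 1 = m + k + 1 + 1 := by push_cast; ring
      rw [e2]; linarith
  have down : ∀ k : ℕ, φ (m - k) = 0 ∧ φ (m - k + 1) = 0 := by
    intro k
    induction k with
    | zero => simpa using ⟨h0, h1⟩
    | succ k ih =>
      have e1 : m - ((k + 1 : ℕ) : ℤ) + 1 = m - k := by push_cast; ring
      have e3 : m - ((k + 1 : ℕ) : ℤ) = m - k - 1 := by push_cast; ring
      refine ⟨?_, by rw [e1]; exact ih.1⟩
      have := h (m - k)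
      unfold dop at this
      rw [ih.1, ih.2] at this
      rw [e3]; linarith
  intro n
  rcases le_total m n with hn | hn
  · obtain ⟨k, hk⟩ := Int.eq_ofNat_of_zero_le (sub_nonneg.mpr hn)
    have : n = m + k := by omega
    rw [this]; exact (up k).1
  · obtain ⟨k, hk⟩ := Int.eq_ofNat_of_zero_le (sub_nonneg.mpr hn)
    have : n = m - k := by omega
    rw [this]; exact (down k).1

/-- The Wronskian. -/
def wr (φ ψ : ℤ → ℝ) (n : ℤ) : ℝ := φ n * ψ (n + 1) - φ (n + 1) * ψ n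

lemma wr_step {v w : ℤ → ℝ} {E : ℝ} {φ ψ : ℤ → ℝ} (h : ∀ n, dop v E φ n = 0)
    (k : ∀ n, dop w E ψ n = 0) (n : ℤ) :
    wr φ ψ n - wr φ ψ (n - 1) = (v n - w n) * (φ n * ψ n) := by
  have a := h n
  have b := k n
  unfold dop at a b
  unfold wr
  have e1 : n - 1 + 1 = n := by ring
  rw [e1]
  have a' : φ (n + 1) = E * φ n - v n * φ n - φ (n - 1) := by linarith
  have b' : ψ (n + 1) = E * ψ n - w n * ψ n - ψ (n - 1) := by linarith
  rw [a', b']; ring

lemma Sq.tendsto_cofinite {φ : ℤ → ℝ} (h : Sq φ) : Tendsto φ cofinite (𝓝 0) := by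
  have h1 : Tendsto (fun n => φ n ^ 2) cofinite (𝓝 0) := h.tendsto_cofinite_zero
  have h2 : Tendsto (fun n => Real.sqrt (φ n ^ 2)) cofinite (𝓝 (Real.sqrt 0)) := h1.sqrt
  rw [Real.sqrt_zero] at h2
  have h3 : Tendsto (fun n => |φ n|) cofinite (𝓝 0) := by
    refine h2.congr (fun n => ?_)
    exact Real.sqrt_sq_eq_abs _
  exact (tendsto_zero_iff_abs_tendsto_zero _).mpr h3

lemma Sq.tendsto_top {φ : ℤ → ℝ} (h : Sq φ) : Tendsto φ atTop (𝓝 0) := by
  have := h.tendsto_cofinite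
  rw [Int.cofinite_eq] at this
  exact this.mono_left le_sup_right

lemma Sq.tendsto_bot {φ : ℤ → ℝ} (h : Sq φ) : Tendsto φ atBot (𝓝 0) := by
  have := h.tendsto_cofinite
  rw [Int.cofinite_eq] at this
  exact this.mono_left le_sup_left

lemma wr_tendsto_top {φ ψ : ℤ → ℝ} (h : Sq φ) (k : Sq ψ) : Tendsto (wr φ ψ) atTop (𝓝 0) := by
  have h1 : Tendsto (fun n : ℤ => φ (n + 1)) atTop (𝓝 0) := (h.shift 1).tendsto_top
  have k1 : Tendsto (fun n : ℤ => ψ (n + 1)) atTop (𝓝 0) := (k.shift 1).tendsto_top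
  have := (h.tendsto_top.mul k1).sub (h1.mul k.tendsto_top)
  rw [mul_zero, sub_zero] at this
  exact this

lemma wr_tendsto_bot {φ ψ : ℤ → ℝ} (h : Sq φ) (k : Sq ψ) : Tendsto (wr φ ψ) atBot (𝓝 0) := by
  have h1 : Tendsto (fun n : ℤ => φ (n + 1)) atBot (𝓝 0) := (h.shift 1).tendsto_bot
  have k1 : Tendsto (fun n : ℤ => ψ (n + 1)) atBot (𝓝 0) := (k.shift 1).tendsto_bot
  have := (h.tendsto_bot.mul k1).sub (h1.mul k.tendsto_bot)
  rw [mul_zero, sub_zero] at this
  exact this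

/-- If the two potentials agree except at `γ`, the Wronskian of two square-summable solutions
vanishes identically. -/
lemma wr_zero {v w : ℤ → ℝ} {E : ℝ} {φ ψ : ℤ → ℝ} (hφ : Sq φ) (hψ : Sq ψ)
    (h : ∀ n, dop v E φ n = 0) (k : ∀ n, dop w E ψ n = 0) {γ : ℤ}
    (hvw : ∀ n, n ≠ γ → v n = w n) : ∀ n, wr φ ψ n = 0 := by
  have step : ∀ n, n ≠ γ → wr φ ψ n = wr φ ψ (n - 1) := by
    intro n hn
    have := wr_step h k n
    rw [hvw n hn, sub_self, zero_mul] at this
    linarith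
  have up : ∀ m, γ ≤ m → wr φ ψ m = 0 := by
    intro m hm
    have hc : ∀ j : ℕ, wr φ ψ (m + j) = wr φ ψ m := by
      intro j
      induction j with
      | zero => simp
      | succ j ih =>
        have := step (m + ((j + 1 : ℕ) : ℤ)) (by push_cast; omega)
        rw [this]
        have e : m + ((j + 1 : ℕ) : ℤ) - 1 = m + j := by push_cast; ring
        rw [e, ih]
    have t1 : Tendsto (fun j : ℕ => wr φ ψ (m + j)) atTop (𝓝 0) := by
      refine (wr_tendsto_top hφ hψ).comp ?_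
      exact tendsto_atTop_add_const_left _ _ tendsto_natCast_atTop_atTop
    have t2 : Tendsto (fun j : ℕ => wr φ ψ (m + j)) atTop (𝓝 (wr φ ψ m)) := by
      simp_rw [hc]; exact tendsto_const_nhds
    exact tendsto_nhds_unique t2 t1
  have down : ∀ m, m < γ → wr φ ψ m = 0 := by
    intro m hm
    have hc : ∀ j : ℕ, wr φ ψ (m - j) = wr φ ψ m := by
      intro j
      induction j with
      | zero => simp
      | succ j ih =>
        have := step (m - j) (by omega)
        have e : m - ((j + 1 : ℕ) : ℤ) = m - j - 1 := by push_cast; ring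
        rw [e, ← this, ih]
    have t1 : Tendsto (fun j : ℕ => wr φ ψ (m - j)) atTop (𝓝 0) := by
      refine (wr_tendsto_bot hφ hψ).comp ?_
      have : Tendsto (fun j : ℕ => (j : ℤ)) atTop atTop := tendsto_natCast_atTop_atTop
      exact tendsto_atBot.mpr (fun b => by
        filter_upwards [this.eventually_ge_atTop (m - b)] with j hj
        linarith)
    have t2 : Tendsto (fun j : ℕ => wr φ ψ (m - j)) atTop (𝓝 (wr φ ψ m)) := by
      simp_rw [hc]; exact tendsto_const_nhds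
    exact tendsto_nhds_unique t2 t1
  intro n
  rcases lt_or_ge n γ with hn | hn
  · exact down n hn
  · exact up n hn

/-- Uniqueness of square-summable solutions. -/
lemma sol_unique {v : ℤ → ℝ} {E : ℝ} {φ ψ : ℤ → ℝ} (hφ : Sq φ) (hψ : Sq ψ)
    (h : ∀ n, dop v E φ n = 0) (k : ∀ n, dop v E ψ n = 0) (h0 : ∃ n, φ n ≠ 0) :
    ∃ κ : ℝ, ∀ n, ψ n = κ * φ n := by
  have hw := wr_zero hφ hψ h k (γ := 0) (fun _ _ => rfl)
  obtain ⟨m, hm⟩ := h0
  refine ⟨ψ m / φ m, ?_⟩
  have hsol : ∀ n, dop v E (fun n => ψ n - ψ m / φ m * φ n) n = 0 := by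
    intro n
    have a := h n
    have b := k n
    unfold dop at *
    linear_combination b - (ψ m / φ m) * a
  have z0 : ψ m - ψ m / φ m * φ m = 0 := by field_simp; ring
  have z1 : ψ (m + 1) - ψ m / φ m * φ (m + 1) = 0 := by
    have := hw m
    unfold wr at this
    field_simp
    linarith
  have := sol_eq_zero hsol (m := m) z0 z1
  intro n
  linarith [this n]

/-- Two potentials differing at exactly one site: square-summable solutions at a common energy
are proportional. -/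
lemma common_sol {v w : ℤ → ℝ} {E : ℝ} {φ ψ : ℤ → ℝ} (hφ : Sq φ) (hψ : Sq ψ)
    (h : ∀ n, dop v E φ n = 0) (k : ∀ n, dop w E ψ n = 0) (h0 : ∃ n, φ n ≠ 0)
    {γ : ℤ} (hvw : ∀ n, n ≠ γ → v n = w n) (hγ : v γ ≠ w γ) :
    ∃ κ : ℝ, ∀ n, ψ n = κ * φ n := by
  have hw := wr_zero hφ hψ h k hvw
  have hprod : φ γ * ψ γ = 0 := by
    have := wr_step h k γ
    rw [hw, hw, sub_self] at this
    have h2 : v γ - w γ ≠ 0 := sub_ne_zero.mpr hγ
    exact (mul_eq_zero.mp this.symm).resolve_left h2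
  have hψγ : ψ γ = 0 := by
    by_contra hne
    have hφγ : φ γ = 0 := (mul_eq_zero.mp hprod).resolve_right hne
    have h1 := hw γ
    unfold wr at h1
    rw [hφγ, zero_mul, zero_sub, neg_eq_zero] at h1
    have hφ1 : φ (γ + 1) = 0 := (mul_eq_zero.mp h1).resolve_right hne
    obtain ⟨m, hm⟩ := h0
    exact hm (sol_eq_zero h hφγ hφ1 m)
  have k' : ∀ n, dop v E ψ n = 0 := by
    intro n
    have := k n
    unfold dop at this ⊢
    by_cases hn : n = γ
    · subst hn
      rw [hψγ, mul_zero] at this ⊢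
      exact this
    · rw [hvw n hn]; exact this
  exact sol_unique hφ hψ h k' h0

lemma abs_le_of_seq {f : ℕ → ℝ} (h : Tendsto f atTop (𝓝 0)) {a : ℝ} (ha : ∀ j, |a| ≤ |f j|) :
    a = 0 := by
  have h1 : Tendsto (fun j => |f j|) atTop (𝓝 0) :=
    (tendsto_zero_iff_abs_tendsto_zero f).mp h
  have := ge_of_tendsto h1 (Eventually.of_forall ha)
  exact abs_nonpos_iff.mp this

/-- A square-summable function which is multiplicatively periodic vanishes. -/
lemma mult_periodic_zero {u : ℤ → ℝ} (hu : Sq u) {q : ℤ} (hq : 0 < q) {c : ℝ}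
    (hrel : ∀ n, u (n - q) = c * u n) (m : ℤ) : u m = 0 := by
  have hnat : Tendsto (fun j : ℕ => (j : ℤ) * q) atTop atTop := by
    refine tendsto_atTop_mono (fun j => ?_) (tendsto_natCast_atTop_atTop (R := ℤ))
    have : (0 : ℤ) ≤ (j : ℤ) := Int.natCast_nonneg j
    nlinarith
  rcases le_or_gt 1 |c| with hc1 | hc1
  · have t1 : Tendsto (fun j : ℕ => u (m - j * q)) atTop (𝓝 0) := by
      refine hu.tendsto_bot.comp ?_
      exact tendsto_atBot.mpr (fun b => by
        filter_upwards [hnat.eventually_ge_atTop (m - b)] with j hj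
        linarith)
    have hpow : ∀ j : ℕ, u (m - j * q) = c ^ j * u m := by
      intro j
      induction j with
      | zero => simp
      | succ j ih =>
        have e : m - ((j + 1 : ℕ) : ℤ) * q = m - j * q - q := by push_cast; ring
        rw [e, hrel, ih]; ring
    refine abs_le_of_seq t1 (fun j => ?_)
    rw [hpow, abs_mul, abs_pow]
    have : 1 ≤ |c| ^ j := one_le_pow₀ hc1
    nlinarith [abs_nonneg (u m)]
  · have t2 : Tendsto (fun j : ℕ => u (m + j * q)) atTop (𝓝 0) := by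
      refine hu.tendsto_top.comp ?_
      exact tendsto_atTop_add_const_left _ _ hnat
    have hpow2 : ∀ j : ℕ, c ^ j * u (m + j * q) = u m := by
      intro j
      induction j with
      | zero => simp
      | succ j ih =>
        have e : m + (j : ℤ) * q = m + ((j + 1 : ℕ) : ℤ) * q - q := by push_cast; ring
        rw [e, hrel] at ih
        rw [← ih]; ring
    refine abs_le_of_seq t2 (fun j => ?_)
    rw [← hpow2 j, abs_mul, abs_pow]
    have : |c| ^ j ≤ 1 := pow_le_one₀ (abs_nonneg _) hc1.le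
    nlinarith [abs_nonneg (u (m + j * q))]

/-- Non-resonance. -/
lemma nonres {x g : ℤ → ℝ} {E : ℝ} {u ψ : ℤ → ℝ} (hu : Sq u) (hψ : Sq ψ)
    (h : ∀ n, dop x E u n = 0) (k : ∀ n, dop g E ψ n = 0) (hu0 : ∃ n, u n ≠ 0)
    (hψ0 : ∃ n, ψ n ≠ 0) {γ φ q : ℤ} (hq : 0 < q) (h1 : ∀ n, n ≠ γ → g n = x n)
    (h2 : g γ ≠ x γ) (h3 : ∀ n, n ≠ φ → g n = x (n - q)) (h4 : g φ ≠ x (φ - q)) : False := by
  obtain ⟨a, ha⟩ := common_sol hψ hu k h hψ0 h1 h2
  have hsh : ∀ n, dop (fun n => x (n - q)) E (fun n => u (n - q)) n = 0 := by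
    intro n
    have := dop_shift x E u (-q)
    have h5 := congrFun this n
    simp only [← sub_eq_add_neg] at h5
    rw [h5]; exact h _
  have hu' : Sq (fun n => u (n - q)) := hu.shift (-q)
  obtain ⟨b, hb⟩ := common_sol hψ hu' k hsh hψ0 h3 h4
  have ha0 : a ≠ 0 := by
    rintro rfl
    obtain ⟨m, hm⟩ := hu0
    exact hm (by rw [ha m]; ring)
  have hrel : ∀ n, u (n - q) = b / a * u n := by
    intro n
    rw [hb n, ha n]
    field_simp
  obtain ⟨m, hm⟩ := hu0
  exact hm (mult_periodic_zero hu hq hrel m)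

end Pool.Agent.Lib.MP_940d9d_mp
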