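import Mathlib

/-!
Definitions used in the statement: pattern complexity and pattern Sturmian sequences.
-/

namespace Pool.Agent.Lib.MP_940d9d_mp

/-- The set of patterns `x(m + τ(0)) x(m + τ(1)) ⋯ x(m + τ(n-1))`, `m ∈ ℤ`, of the two-sided
sequence `x` seen through the window `τ`. -/
def patterns (x : ℤ → Fin 2) {n : ℕ} (τ : Fin n → ℤ) : Set (Fin n → Fin 2) :=
  Set.range fun m : ℤ => fun i : Fin n => x (m + τ i)

/-- The (Kamae-Zamboni) pattern complexity `p*(n)`: the supremum of the number of patterns over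
all windows `0 = τ(0) < τ(1) < ⋯ < τ(n-1)` of integers. -/
noncomputable def patternComplexity (x : ℤ → Fin 2) (n : ℕ) : ℕ∞ :=
  ⨆ (τ : Fin n → ℤ) (_ : StrictMono τ ∧ ∀ i : Fin n, (i : ℕ) = 0 → τ i = 0),
    (patterns x τ).encard

/-- The two-sided sequence `x` is recurrent: every factor `x(a) ⋯ x(a+L-1)` occurs at positions
tending to `+∞` and at positions tending to `-∞`. -/
def Recurrent (x : ℤ → Fin 2) : Prop :=
  ∀ (a : ℤ) (L : ℕ) (T : ℤ),
    (∃ t, T < t ∧ ∀ i : ℕ, i < L → x (t + i) = x (a + i)) ∧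
    (∃ t, t < T ∧ ∀ i : ℕ, i < L → x (t + i) = x (a + i))

/-- `x` is pattern Sturmian: it is recurrent and `p*(n) = 2 n` for all `n ≥ 1`. -/
def PatternSturmian (x : ℤ → Fin 2) : Prop :=
  Recurrent x ∧ ∀ n : ℕ, 1 ≤ n → patternComplexity x n = 2 * n

end Pool.Agent.Lib.MP_940d9d_mp
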