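import Pool.Agent.Lib.MP_940d9d_mp.Stair

/-!
The limit sequence of a chain of data: local agreement, recurrence and pattern counting.
-/

namespace Pool.Agent.Lib.MP_940d9d_mp

/-- A chain of data. -/
structure Chain (D : ℕ → Dat) (N : ℕ → ℤ) : Prop where
  valid0 : (D 0).Valid
  succ : ∀ k, D (k + 1) = (D k).next (N k)
  large : ∀ k : ℕ, (k : ℤ) + 4 ≤ N k

namespace Chain
variable {D : ℕ → Dat} {N : ℕ → ℤ} (h : Chain D N)
include h

lemma N4 (k : ℕ) : 4 ≤ N k := by
  have := h.large k
  omega

lemma valid (k : ℕ) : (D k).Valid := by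
  induction k with
  | zero => exact h.valid0
  | succ k ih => rw [h.succ]; exact ih.next_valid (h.N4 k)

lemma q0 (k : ℕ) : 0 < (D k).q := (h.valid k).q0

lemma q3 (k : ℕ) : (D k).q * 3 < (D (k + 1)).q := by
  rw [h.succ]; exact (h.valid k).next_q (h.N4 k)

lemma qN (k : ℕ) : (N k - 1) * (D k).q ≤ (D (k + 1)).q := by
  have := (h.valid k).qmq
  rw [h.succ]
  show (N k - 1) * (D k).q ≤ N k * (D k).q - (D k).qm
  nlinarith

lemma lt_q (k : ℕ) : (k : ℤ) < (D k).q := by
  induction k with
  | zero => simpa using h.q0 0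
  | succ k ih =>
    have := h.q3 k
    push_cast
    omega

lemma q_mono {k l : ℕ} (hkl : k ≤ l) : (D k).q ≤ (D l).q := by
  induction l, hkl using Nat.le_induction with
  | base => exact le_rfl
  | succ l _ ih =>
    have := h.q3 l
    have := h.q0 l
    omega

lemma step_eq (k : ℕ) {n : ℤ} (hn : |n| < (D (k + 1)).q - 2 * (D k).q) :
    (D (k + 1)).pot n = (D k).pot n := by
  have h1 := abs_lt.mp hn
  have h2 := h.q0 k
  rw [h.succ] at *
  exact (h.valid k).next_pot_mid (h.N4 k) (by omega) (by omega)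

lemma agree {k l : ℕ} (hkl : k ≤ l) {n : ℤ} (hn : |n| < (D (k + 1)).q - 2 * (D k).q) :
    (D l).pot n = (D k).pot n := by
  induction l, hkl using Nat.le_induction with
  | base => rfl
  | succ l hl ih =>
    rw [← ih]
    apply h.step_eq
    rcases eq_or_lt_of_le hl with h1 | h1
    · rw [← h1]; exact hn
    · have h2 := h.q_mono (show k + 1 ≤ l from h1)
      have h3 := h.q3 l
      have h4 := h.q0 k
      omega

end Chain

/-- The limit sequence. -/
def lim (D : ℕ → Dat) (n : ℤ) : ℤ := (D n.natAbs).pot n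

namespace Chain
variable {D : ℕ → Dat} {N : ℕ → ℤ} (h : Chain D N)
include h

lemma lim_eq (k : ℕ) {n : ℤ} (hn : |n| < (D (k + 1)).q - 2 * (D k).q) :
    lim D n = (D k).pot n := by
  unfold lim
  rcases le_total k n.natAbs with h1 | h1
  · exact h.agree h1 hn
  · symm
    apply h.agree h1
    have h2 := h.q3 n.natAbs
    have h3 := h.lt_q n.natAbs
    have h4 : |n| = (n.natAbs : ℤ) := Int.abs_eq_natAbs n
    omega

lemma lim_val (n : ℤ) : lim D n = 0 ∨ lim D n = 1 := (h.valid _).val n

lemma lim_gen (k : ℕ) {n : ℤ} (hn : |n| < (D (k + 1)).q - 2 * (D k).q) :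
    (D (k + 1)).gen n = lim D n := by
  have h0 := h.q0 k
  have h1 : n ≠ (D (k + 1)).b := by
    have e : (D (k + 1)).b = (D k).a + (D (k + 1)).q - (D k).q := by
      rw [h.succ]; rfl
    have ha := (h.valid k).a0
    rw [e]
    rintro rfl
    have := abs_lt.mp hn
    omega
  rw [(h.valid (k + 1)).gen_eq h1, h.step_eq k hn, h.lim_eq k hn]

lemma r_ge (k : ℕ) : ((k : ℤ) + 1) * (D k).q ≤ (D (k + 1)).q - 2 * (D k).q := by
  have h1 := h.qN k
  have h2 := h.large k
  have h3 := h.q0 k
  nlinarith

/-- The limit sequence is recurrent in both directions. -/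
lemma recurrent (R T : ℤ) :
    (∃ t, T < t ∧ ∀ n, |n| ≤ R → lim D (n + t) = lim D n) ∧
      (∃ t, t < -T ∧ ∀ n, |n| ≤ R → lim D (n + t) = lim D n) := by
  obtain ⟨k, hk⟩ : ∃ k : ℕ, R < k ∧ T < k :=
    ⟨(max R T).toNat + 1, by
      have := le_max_left R T
      omega, by
      have := le_max_right R T
      omega⟩
  obtain ⟨hk1, hk2⟩ := hk
  have a0 := h.q0 k
  have a1 := h.lt_q k
  have a2 := h.q3 k
  have a3 : (D (k + 1)).q * 3 < (D (k + 2)).q := h.q3 (k + 1)
  have a4 := h.r_ge k
  have a5 : (((k + 1 : ℕ) : ℤ) + 1) * (D (k + 1)).q ≤ (D (k + 2)).q - 2 * (D (k + 1)).q :=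
    h.r_ge (k + 1)
  have a6 : (((k + 2 : ℕ) : ℤ) + 1) * (D (k + 2)).q ≤ (D (k + 3)).q - 2 * (D (k + 2)).q :=
    h.r_ge (k + 2)
  have hk0 : (0 : ℤ) ≤ (k : ℤ) := Int.natCast_nonneg k
  have b4 : (D k).q ≤ (D (k + 1)).q - 2 * (D k).q := by nlinarith
  have b5 : (D (k + 1)).q ≤ (D (k + 2)).q - 2 * (D (k + 1)).q := by
    push_cast at a5
    nlinarith
  have b6 : 3 * (D (k + 2)).q ≤ (D (k + 3)).q - 2 * (D (k + 2)).q := by
    push_cast at a6
    have : 0 < (D (k + 2)).q := h.q0 _
    nlinarith
  have hV := h.valid (k + 1)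
  have hN := h.N4 (k + 1)
  have hsucc : D (k + 2) = (D (k + 1)).next (N (k + 1)) := h.succ (k + 1)
  constructor
  · refine ⟨(D (k + 2)).q - (D (k + 1)).q, by omega, fun n hn => ?_⟩
    have hn1 := abs_le.mp hn
    rw [h.lim_eq (k + 2) (n := n + ((D (k + 2)).q - (D (k + 1)).q)) (by
      show |n + ((D (k + 2)).q - (D (k + 1)).q)| < (D (k + 3)).q - 2 * (D (k + 2)).q
      rw [abs_lt]; constructor <;> omega)]
    rw [← h.lim_gen k (n := n) (by omega)]
    have := hV.next_pot_pos hN (i := 1) (n := n) le_rfl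
      (by rw [← hsucc]; omega) (by rw [← hsucc]; omega)
    rw [← hsucc] at this
    rw [← this]
    congr 1
    ring
  · refine ⟨-(D (k + 2)).q, by omega, fun n hn => ?_⟩
    have hn1 := abs_le.mp hn
    rw [h.lim_eq (k + 2) (n := n + -(D (k + 2)).q) (by
      show |n + -(D (k + 2)).q| < (D (k + 3)).q - 2 * (D (k + 2)).q
      rw [abs_lt]; constructor <;> omega)]
    rw [← h.lim_gen k (n := n) (by omega)]
    have := hV.next_pot_neg hN (i := -1) (n := n) le_rfl
      (by rw [← hsucc]; omega) (by rw [← hsucc]; omega)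
    rw [← hsucc] at this
    rw [← this]
    congr 1
    ring

/-- Locally the limit sequence is a coding of a rational rotation by an interval. -/
lemma local_coding (R : ℤ) : ∃ p q A B s c : ℤ, 0 < q ∧ ∀ n, |n| ≤ R →
    lim D n = s * ((n * p + A) / q - (n * p + B) / q) + c := by
  obtain ⟨k, hk⟩ : ∃ k : ℕ, R < k := ⟨R.toNat + 1, by omega⟩
  have a0 := h.q0 k
  have a1 := h.lt_q k
  have a2 := h.q3 k
  have a4 := h.r_ge k
  have hk0 : (0 : ℤ) ≤ (k : ℤ) := Int.natCast_nonneg k
  have b4 : (D k).q ≤ (D (k + 1)).q - 2 * (D k).q := by nlinarith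
  have hV := h.valid k
  have hN := h.N4 k
  have hdet := hV.next_det hN
  rw [← h.succ] at hdet
  refine ⟨(D (k + 1)).p, (D (k + 1)).q, -(D k).a * (D (k + 1)).p, -(D k).b * (D (k + 1)).p,
    (D k).s, (D k).c, h.q0 _, fun n hn => ?_⟩
  have hn1 := abs_le.mp hn
  rw [h.lim_eq k (n := n) (by omega)]
  unfold Dat.pot
  have ha0 := hV.a0; have haq := hV.aq; have hb0 := hV.b0; have hbq := hV.bq
  rw [← stair_base a0 (h.q0 (k + 1)) hdet (n := n - (D k).a) (by omega) (by omega),
    ← stair_base a0 (h.q0 (k + 1)) hdet (n := n - (D k).b) (by omega) (by omega)]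
  have e1 : (n - (D k).a) * (D (k + 1)).p = n * (D (k + 1)).p + -(D k).a * (D (k + 1)).p := by
    ring
  have e2 : (n - (D k).b) * (D (k + 1)).p = n * (D (k + 1)).p + -(D k).b * (D (k + 1)).p := by
    ring
  rw [e1, e2]

lemma ab_level (k : ℕ) : 0 < (D (k + 2)).b - (D (k + 2)).a ∧
    (D (k + 2)).b - (D (k + 2)).a < (D (k + 2)).q := by
  have e1 : (D (k + 2)).b = (D (k + 1)).a + (D (k + 2)).q - (D (k + 1)).q := by
    rw [h.succ (k + 1)]; rfl
  have e2 : (D (k + 2)).a = (D (k + 1)).b := by rw [h.succ (k + 1)]; rfl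
  have e3 : (D (k + 1)).a = (D k).b := by rw [h.succ k]; rfl
  have v := (h.valid k)
  have v1 := (h.valid (k + 1))
  have := v.b0; have := v.bq; have := v1.b0; have := v1.bq; have := v1.a0
  have := h.q3 k
  have : (D (k + 1)).q * 3 < (D (k + 2)).q := h.q3 (k + 1)
  have := h.q0 k
  constructor <;> omega

end Chain

namespace Dat.Valid
variable {D : Dat} (hD : D.Valid)
include hD

lemma pot_sub {n : ℤ} (ha : n ≠ D.a) (hb : n ≠ D.b) : D.pot (n - D.q) = D.pot n := by
  rw [← hD.gen_eq' ha, hD.gen_eq hb]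

lemma pot_a : D.pot (D.a - D.q) = D.pot D.a - D.s := by
  have := hD.gen_a
  rw [hD.gen_eq hD.ab] at this
  omega

lemma pot_b : D.pot (D.b - D.q) = D.pot D.b + D.s := by
  have := hD.gen_b
  rw [hD.gen_eq' hD.ab.symm] at this
  exact this

end Dat.Valid

/-- A function which is `q`-periodic except for a jump at the site `A`. -/
lemma class_const {f : ℤ → ℤ} {q A : ℤ}
    (hf : ∀ i : ℤ, i ≠ 0 → f (A + i * q - q) = f (A + i * q)) :
    ∀ i : ℤ, f (A + i * q) = if 0 ≤ i then f A else f (A - q) := by
  have up : ∀ k : ℕ, f (A + (k : ℤ) * q) = f A := by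
    intro k
    induction k with
    | zero => simp
    | succ k ih =>
      have := hf ((k : ℤ) + 1) (by omega)
      have e : A + ((k : ℤ) + 1) * q - q = A + (k : ℤ) * q := by ring
      rw [e, ih] at this
      push_cast
      exact this.symm
  have down : ∀ k : ℕ, f (A - q - (k : ℤ) * q) = f (A - q) := by
    intro k
    induction k with
    | zero => simp
    | succ k ih =>
      have := hf (-((k : ℤ) + 1)) (by omega)
      have e : A + -((k : ℤ) + 1) * q = A - q - (k : ℤ) * q := by ring
      have e2 : A - q - (((k + 1 : ℕ) : ℤ)) * q = A - q - (k : ℤ) * q - q := by push_cast; ring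
      rw [e, ih] at this
      rw [e2]
      exact this
  intro i
  split_ifs with hi
  · have := up i.toNat
    rwa [Int.toNat_of_nonneg hi] at this
  · have := down (-i - 1).toNat
    rw [Int.toNat_of_nonneg (by omega)] at this
    rw [← this]
    congr 1
    ring

namespace Chain
variable {D : ℕ → Dat} {N : ℕ → ℤ} (h : Chain D N)
include h

/-- There are a step `q` and two base points along which the sequence is `0…01…1`, respectively
`1…10…0`. -/
lemma two_classes (n : ℕ) : ∃ q A B : ℤ, 0 < q ∧ (∀ i : ℤ, |i| ≤ n → lim D (A + i * q) =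
    if 0 ≤ i then 1 else 0) ∧ (∀ i : ℤ, |i| ≤ n → lim D (B + i * q) = if 0 ≤ i then 0 else 1) := by
  set k := n + 2 with hk
  have hV := h.valid k
  have hq := h.q0 k
  have hr := h.r_ge k
  obtain ⟨hab1, hab2⟩ := h.ab_level n
  rw [← hk] at hab1 hab2
  have ha0 := hV.a0; have haq := hV.aq; have hb0 := hV.b0; have hbq := hV.bq
  have hloc : ∀ C : ℤ, 0 ≤ C → C ≤ (D k).q → ∀ i : ℤ, |i| ≤ n →
      lim D (C + i * (D k).q) = (D k).pot (C + i * (D k).q) := by
    intro C hC1 hC2 i hi
    apply h.lim_eq k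
    have hi1 := abs_le.mp hi
    have hkn : (k : ℤ) = n + 2 := by rw [hk]; push_cast; ring
    rw [hkn] at hr
    rw [abs_lt]
    constructor
    · nlinarith
    · nlinarith
  have hne : ∀ i : ℤ, (D k).a + i * (D k).q ≠ (D k).b := by
    intro i hi
    have e : i * (D k).q = (D k).b - (D k).a := by omega
    rcases lt_trichotomy i 0 with h1 | h1 | h1
    · nlinarith
    · rw [h1, zero_mul] at e; omega
    · nlinarith
  have hne' : ∀ i : ℤ, (D k).b + i * (D k).q ≠ (D k).a := by
    intro i hi
    apply hne (-i)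
    rw [neg_mul]; omega
  have ca := class_const (f := (D k).pot) (q := (D k).q) (A := (D k).a) (by
    intro i hi
    apply hV.pot_sub
    · intro h1
      have : i * (D k).q = 0 := by omega
      rcases mul_eq_zero.mp this with h2 | h2
      · exact hi h2
      · omega
    · exact hne i)
  have cb := class_const (f := (D k).pot) (q := (D k).q) (A := (D k).b) (by
    intro i hi
    apply hV.pot_sub
    · exact hne' i
    · intro h1
      have : i * (D k).q = 0 := by omega
      rcases mul_eq_zero.mp this with h2 | h2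
      · exact hi h2
      · omega)
  have pa := hV.pot_a
  have pb := hV.pot_b
  have va := hV.val (D k).a
  have va' := hV.val ((D k).a - (D k).q)
  have vb := hV.val (D k).b
  have vb' := hV.val ((D k).b - (D k).q)
  rcases hV.s1 with hs | hs
  · refine ⟨(D k).q, (D k).a, (D k).b, hq, fun i hi => ?_, fun i hi => ?_⟩
    · rw [hloc _ ha0 haq i hi, ca i]
      split_ifs <;> omega
    · rw [hloc _ hb0 hbq i hi, cb i]
      split_ifs <;> omega
  · refine ⟨(D k).q, (D k).b, (D k).a, hq, fun i hi => ?_, fun i hi => ?_⟩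
    · rw [hloc _ hb0 hbq i hi, cb i]
      split_ifs <;> omega
    · rw [hloc _ ha0 haq i hi, ca i]
      split_ifs <;> omega

end Chain

/-! ### counting patterns of rational codings -/

lemma ediv_pred {q z : ℤ} (hq : 0 < q) (h : ¬ q ∣ z) : (z - 1) / q = z / q := by
  have h6 : 0 < z % q := by
    have h7 := Int.emod_nonneg z hq.ne'
    have h8 : z % q ≠ 0 := fun h' => h (Int.dvd_of_emod_eq_zero h')
    omega
  have h9 := Int.emod_lt_of_pos z hq
  have h10 := Int.emod_add_mul_ediv z q
  rw [Int.ediv_eq_iff_of_pos hq]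
  constructor
  · nlinarith
  · nlinarith

lemma card_patterns (p q A B s c : ℤ) (hq : 0 < q) {n : ℕ} (hn : 1 ≤ n) (τ : Fin n → ℤ) :
    ∃ C : Finset (Fin n → ℤ), C.card ≤ 2 * n ∧ ∀ m : ℤ,
      (fun i => s * (((m + τ i) * p + A) / q - ((m + τ i) * p + B) / q) + c) ∈ C := by
  classical
  set f : ℤ → (Fin n → ℤ) := fun z i =>
    s * ((z + (τ i * p + A)) / q - (z + (τ i * p + B)) / q) + c with hf
  set C0 : Finset ℤ := Finset.univ.image (fun i => (-(τ i * p + A)) % q) ∪
    Finset.univ.image (fun i => (-(τ i * p + B)) % q) with hC0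
  have hcard : C0.card ≤ 2 * n := by
    refine (Finset.card_union_le _ _).trans ?_
    have h1 : (Finset.univ.image (fun i : Fin n => (-(τ i * p + A)) % q)).card ≤ n := by
      refine Finset.card_image_le.trans ?_
      simp
    have h2 : (Finset.univ.image (fun i : Fin n => (-(τ i * p + B)) % q)).card ≤ n := by
      refine Finset.card_image_le.trans ?_
      simp
    omega
  have hper : ∀ z, f z = f (z % q) := by
    intro z
    ext i
    simp only [hf]
    have e := Int.emod_add_mul_ediv z q
    have e1 : z + (τ i * p + A) = (z % q + (τ i * p + A)) + (z / q) * q := by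
      linear_combination -e
    have e2 : z + (τ i * p + B) = (z % q + (τ i * p + B)) + (z / q) * q := by
      linear_combination -e
    rw [e1, e2, Int.add_mul_ediv_right _ _ hq.ne', Int.add_mul_ediv_right _ _ hq.ne']
    ring
  have hstep : ∀ z, z % q ∉ C0 → f z = f (z - 1) := by
    intro z hz
    have key : ∀ t : ℤ, z % q ≠ (-t) % q → (z - 1 + t) / q = (z + t) / q := by
      intro t ht
      have e : z - 1 + t = z + t - 1 := by ring
      rw [e]
      apply ediv_pred hq
      intro hd
      apply ht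
      have : z ≡ -t [ZMOD q] := by
        rw [Int.modEq_iff_dvd]
        have : -t - z = -(z + t) := by ring
        rw [this]
        exact (dvd_neg).mpr hd
      exact this
    ext i
    simp only [hf]
    have hi1 : z % q ≠ (-(τ i * p + A)) % q := by
      intro h
      apply hz
      rw [h, hC0]
      exact Finset.mem_union_left _ (Finset.mem_image_of_mem _ (Finset.mem_univ i))
    have hi2 : z % q ≠ (-(τ i * p + B)) % q := by
      intro h
      apply hz
      rw [h, hC0]
      exact Finset.mem_union_right _ (Finset.mem_image_of_mem (fun i => (-(τ i * p + B)) % q)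
        (Finset.mem_univ i))
    rw [key _ hi1, key _ hi2]
  have hmain : ∀ (k : ℕ) (z : ℤ), (z - k) % q ∈ C0 → f z ∈ C0.image f := by
    intro k
    induction k with
    | zero =>
      intro z hz
      rw [hper z]
      apply Finset.mem_image_of_mem
      simpa using hz
    | succ k ih =>
      intro z hz
      by_cases hz0 : z % q ∈ C0
      · rw [hper z]
        exact Finset.mem_image_of_mem _ hz0
      · rw [hstep z hz0]
        apply ih
        have : z - 1 - (k : ℤ) = z - ((k + 1 : ℕ) : ℤ) := by push_cast; ring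
        rw [this]; exact hz
  refine ⟨C0.image f, Finset.card_image_le.trans hcard, fun m => ?_⟩
  have e : (fun i => s * (((m + τ i) * p + A) / q - ((m + τ i) * p + B) / q) + c) = f (m * p) := by
    ext i
    simp only [hf]
    have e1 : (m + τ i) * p + A = m * p + (τ i * p + A) := by ring
    have e2 : (m + τ i) * p + B = m * p + (τ i * p + B) := by ring
    rw [e1, e2]
  rw [e]
  set i0 : Fin n := ⟨0, hn⟩
  set w : ℤ := -(τ i0 * p + A) with hw
  refine hmain ((m * p - w) % q).toNat (m * p) ?_
  rw [Int.toNat_of_nonneg (Int.emod_nonneg _ hq.ne')]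
  have e3 : (m * p - (m * p - w) % q) % q = w % q := by
    have : m * p - (m * p - w) % q ≡ w [ZMOD q] := by
      have h1 : (m * p - w) % q ≡ m * p - w [ZMOD q] := Int.mod_modEq _ _
      have h2 := (Int.ModEq.refl (n := q) (m * p)).sub h1
      have h3 : m * p - (m * p - w) = w := by ring
      rw [h3] at h2
      exact h2
    exact this
  rw [e3, hC0, hw]
  exact Finset.mem_union_left _ (Finset.mem_image_of_mem (fun i => (-(τ i * p + A)) % q)
    (Finset.mem_univ i0))

end Pool.Agent.Lib.MP_940d9d_mp
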