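import Pool.Agent.Lib.MP_940d9d_mp.OpDefs

/-!
The spectral measure of an eigenvector is a multiple of a point mass.
-/

open scoped ENNReal BoundedContinuousFunction
open MeasureTheory

namespace Pool.Agent.Lib.MP_940d9d_mp

section
variable {H : Type*} [NormedAddCommGroup H] [InnerProductSpace ℂ H] [CompleteSpace H]

lemma aeval_eigen (A : H →L[ℂ] H) {ψ : H} {E : ℝ} (h : A ψ = (E : ℂ) • ψ) (p : Polynomial ℝ) :
    (Polynomial.aeval A p) ψ = ((p.eval E : ℝ) : ℂ) • ψ := by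
  have hpow : ∀ n : ℕ, (A ^ n) ψ = ((E ^ n : ℝ) : ℂ) • ψ := by
    intro n
    induction n with
    | zero => simp
    | succ n ih =>
      rw [pow_succ]
      show (A ^ n) (A ψ) = _
      rw [h, map_smul, ih, smul_smul]
      congr 1
      push_cast
      ring
  induction p using Polynomial.induction_on' with
  | add p q hp hq =>
    rw [map_add, _root_.add_apply, hp, hq, Polynomial.eval_add, ← add_smul]
    push_cast
    rfl
  | monomial n a =>
    rw [Polynomial.aeval_monomial, Polynomial.eval_monomial]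
    show (algebraMap ℝ (H →L[ℂ] H) a) ((A ^ n) ψ) = _
    rw [hpow, Algebra.algebraMap_eq_smul_one]
    show a • (((E ^ n : ℝ) : ℂ) • ψ) = _
    rw [← Complex.coe_smul, smul_smul]
    push_cast
    rfl

lemma cfc_eigen {A : H →L[ℂ] H} (hA : IsSelfAdjoint A) {ψ : H} {E : ℝ} (h : A ψ = (E : ℂ) • ψ)
    {f : ℝ → ℝ} (hf : Continuous f) : cfc f A ψ = ((f E : ℝ) : ℂ) • ψ := by
  by_cases hψ : ψ = 0
  · simp [hψ]
  have hψ0 : 0 < ‖ψ‖ := norm_pos_iff.mpr hψ
  have hER : E ∈ Set.Icc (-‖A‖) ‖A‖ := by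
    have h1 := A.le_opNorm ψ
    rw [h, norm_smul, Complex.norm_real, Real.norm_eq_abs] at h1
    have h2 := le_of_mul_le_mul_right h1 hψ0
    exact abs_le.mp h2
  have hspec : ∀ t ∈ spectrum ℝ A, t ∈ Set.Icc (-‖A‖) ‖A‖ := by
    intro t ht
    have := spectrum.norm_le_norm_mul_of_mem ht
    have h1 : ‖(1 : H →L[ℂ] H)‖ ≤ 1 := ContinuousLinearMap.norm_id_le
    have h2 : |t| ≤ ‖A‖ := by
      rw [← Real.norm_eq_abs]
      nlinarith [norm_nonneg A]
    exact abs_le.mp h2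
  have key : ∀ ε > 0, ‖cfc f A ψ - ((f E : ℝ) : ℂ) • ψ‖ ≤ 2 * ε * ‖ψ‖ := by
    intro ε hε
    obtain ⟨p, hp⟩ := exists_polynomial_near_of_continuousOn (-‖A‖) ‖A‖ f hf.continuousOn ε hε
    have h1 : cfc (fun t => f t - p.eval t) A = cfc f A - Polynomial.aeval A p := by
      rw [cfc_sub f (fun t => p.eval t) A hf.continuousOn p.continuous.continuousOn,
        cfc_polynomial p A hA]
    have h2 : ‖cfc (fun t => f t - p.eval t) A‖ ≤ ε := by
      apply norm_cfc_le hε.le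
      intro t ht
      have := hp t (hspec t ht)
      rw [Real.norm_eq_abs, abs_sub_comm]
      exact this.le
    have h3 : cfc f A ψ - ((f E : ℝ) : ℂ) • ψ =
        (cfc (fun t => f t - p.eval t) A) ψ + (((p.eval E - f E : ℝ)) : ℂ) • ψ := by
      rw [h1, _root_.sub_apply, aeval_eigen A h p]
      push_cast
      rw [sub_smul]
      abel
    rw [h3]
    refine (norm_add_le _ _).trans ?_
    have h4 : ‖(cfc (fun t => f t - p.eval t) A) ψ‖ ≤ ε * ‖ψ‖ :=
      (ContinuousLinearMap.le_opNorm _ _).trans (mul_le_mul_of_nonneg_right h2 hψ0.le)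
    have h5 : ‖(((p.eval E - f E : ℝ)) : ℂ) • ψ‖ ≤ ε * ‖ψ‖ := by
      rw [norm_smul, Complex.norm_real, Real.norm_eq_abs]
      exact mul_le_mul_of_nonneg_right (hp E hER).le hψ0.le
    linarith
  have h0 : ‖cfc f A ψ - ((f E : ℝ) : ℂ) • ψ‖ ≤ 0 := by
    refine le_of_forall_pos_le_add (fun ε hε => ?_)
    have := key (ε / (2 * ‖ψ‖)) (by positivity)
    have e : 2 * (ε / (2 * ‖ψ‖)) * ‖ψ‖ = ε := by field_simp
    rw [e] at this
    linarith
  have h1 := norm_le_zero_iff.mp h0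
  exact sub_eq_zero.mp h1

lemma spectral_dirac {A : H →L[ℂ] H} (hA : IsSelfAdjoint A) {ψ : H} {E : ℝ}
    (h : A ψ = (E : ℂ) • ψ) (μ : Measure ℝ) :
    IsSpectralMeasure A ψ μ ↔ μ = ENNReal.ofReal (‖ψ‖ ^ 2) • Measure.dirac E := by
  have hfin : IsFiniteMeasure (ENNReal.ofReal (‖ψ‖ ^ 2) • Measure.dirac E) := by
    refine ⟨?_⟩
    simp
  have hcalc : ∀ f : ℝ →ᵇ ℝ, inner ℂ ψ (cfc (fun t : ℝ => f t) A ψ) =
      ((∫ t, f t ∂(ENNReal.ofReal (‖ψ‖ ^ 2) • Measure.dirac E) : ℝ) : ℂ) := by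
    intro f
    rw [cfc_eigen hA h f.continuous, inner_smul_right, integral_smul_measure, integral_dirac,
      ENNReal.toReal_ofReal (by positivity), inner_self_eq_norm_sq_to_K]
    simp only [smul_eq_mul, Complex.ofReal_mul, Complex.ofReal_pow, Complex.coe_algebraMap]
    ring
  constructor
  · rintro ⟨h1, h2⟩
    haveI := h1
    haveI := hfin
    apply ext_of_forall_integral_eq_of_IsFiniteMeasure
    intro f
    have := (h2 f).symm.trans (hcalc f)
    exact_mod_cast this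
  · rintro rfl
    exact ⟨hfin, hcalc⟩

end

end Pool.Agent.Lib.MP_940d9d_mp
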