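import Pool.Agent.Lib.MP_940d9d_mp.Induct
import Pool.Agent.Lib.MP_940d9d_mp.Limit
import Pool.Agent.Lib.MP_940d9d_mp.Spectral

/-!
Assembly: the limit sequence is pattern Sturmian and its Schroedinger operator has an
eigenvalue.
-/

open scoped ENNReal BigOperators
open Filter Topology

namespace Pool.Agent.Lib.MP_940d9d_mp

/-- the binary sequence attached to a chain -/
def seq (D : ℕ → Dat) : ℤ → Fin 2 := fun n => if lim D n = 1 then 1 else 0

namespace Chain
variable {D : ℕ → Dat} {N : ℕ → ℤ} (h : Chain D N)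
include h

lemma seq_val (n : ℤ) : (((seq D n : Fin 2) : ℕ) : ℤ) = lim D n := by
  unfold seq
  rcases h.lim_val n with h1 | h1 <;> simp [h1]

lemma seq_recurrent : Recurrent (seq D) := by
  intro a L T
  obtain ⟨⟨t, ht1, ht2⟩, ⟨t', ht1', ht2'⟩⟩ := h.recurrent (|a| + L) (|T| + |a|)
  have e1 := le_abs_self a
  have e2 := neg_le_abs a
  have e3 := le_abs_self T
  have e4 := neg_le_abs T
  constructor
  · refine ⟨a + t, by omega, fun i hi => ?_⟩
    unfold seq
    have := ht2 (a + i) (by
      rw [abs_le]; constructor <;> omega)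
    have e : a + t + (i : ℤ) = a + i + t := by ring
    rw [e, this]
  · refine ⟨a + t', by omega, fun i hi => ?_⟩
    unfold seq
    have := ht2' (a + i) (by
      rw [abs_le]; constructor <;> omega)
    have e : a + t' + (i : ℤ) = a + i + t' := by ring
    rw [e, this]

lemma patterns_le {n : ℕ} (hn : 1 ≤ n) (τ : Fin n → ℤ) : (patterns (seq D) τ).encard ≤ 2 * n := by
  classical
  have hfin : (patterns (seq D) τ).Finite := Set.toFinite _
  -- choose representatives
  have hch : ∀ P : Fin n → Fin 2, ∃ m : ℤ, P ∈ patterns (seq D) τ →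
      (fun i => seq D (m + τ i)) = P := by
    intro P
    by_cases hP : P ∈ patterns (seq D) τ
    · obtain ⟨m, hm⟩ := hP
      exact ⟨m, fun _ => hm⟩
    · exact ⟨0, fun h => absurd h hP⟩
  choose m hm using hch
  -- a bound for all sites
  set R : ℤ := ∑ P : Fin n → Fin 2, ∑ i : Fin n, |m P + τ i| with hR
  have hRb : ∀ P i, |m P + τ i| ≤ R := by
    intro P i
    calc |m P + τ i| ≤ ∑ i : Fin n, |m P + τ i| :=
          Finset.single_le_sum (f := fun i => |m P + τ i|) (fun _ _ => abs_nonneg _)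
            (Finset.mem_univ i)
      _ ≤ R := Finset.single_le_sum (f := fun P => ∑ i : Fin n, |m P + τ i|)
            (fun _ _ => Finset.sum_nonneg fun _ _ => abs_nonneg _) (Finset.mem_univ P)
  obtain ⟨p, q, A, B, s, c, hq, hloc⟩ := h.local_coding R
  obtain ⟨C, hC1, hC2⟩ := card_patterns p q A B s c hq hn τ
  -- map patterns to C
  set F : (Fin n → Fin 2) → (Fin n → ℤ) := fun P i => ((P i : ℕ) : ℤ) with hF
  have hFinj : Function.Injective F := by
    intro P Q hPQ
    ext i
    have := congrFun hPQ i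
    simp only [hF] at this
    exact_mod_cast this
  have hmem : ∀ P ∈ patterns (seq D) τ, F P ∈ C := by
    intro P hP
    have e : F P = fun i => s * (((m P + τ i) * p + A) / q - ((m P + τ i) * p + B) / q) + c := by
      ext i
      rw [← hloc _ (hRb P i), ← h.seq_val]
      have := congrFun (hm P hP) i
      simp only [hF]
      rw [← this]
    rw [e]; exact hC2 (m P)
  calc (patterns (seq D) τ).encard = (F '' patterns (seq D) τ).encard :=
        (hFinj.encard_image _).symm
    _ ≤ (C : Set (Fin n → ℤ)).encard := by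
        apply Set.encard_le_encard
        rintro _ ⟨P, hP, rfl⟩
        exact hmem P hP
    _ = (C.card : ℕ∞) := Set.encard_coe_eq_coe_finsetCard C
    _ ≤ 2 * n := by exact_mod_cast hC1

lemma le_patterns (n : ℕ) : ∃ τ : Fin n → ℤ, StrictMono τ ∧
    (∀ i : Fin n, (i : ℕ) = 0 → τ i = 0) ∧ (2 * n : ℕ∞) ≤ (patterns (seq D) τ).encard := by
  obtain ⟨q, A, B, hq, hA, hB⟩ := h.two_classes n
  refine ⟨fun i => (i : ℤ) * q, ?_, ?_, ?_⟩
  · intro i j hij
    have : ((i : ℕ) : ℤ) < ((j : ℕ) : ℤ) := by exact_mod_cast hij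
    exact mul_lt_mul_of_pos_right this hq
  · intro i hi
    simp [hi]
  · set F : Fin n ⊕ Fin n → (Fin n → Fin 2) := fun t => match t with
      | Sum.inl t => fun i => if t ≤ i then 1 else 0
      | Sum.inr t => fun i => if t ≤ i then 0 else 1 with hF
    have hinj : Function.Injective F := by
      have key : ∀ t u : Fin n, (∀ i : Fin n, t ≤ i ↔ u ≤ i) → t = u := by
        intro t u htu
        exact le_antisymm ((htu u).mpr le_rfl) ((htu t).mp le_rfl)
      rintro (t | t) (u | u) htu
      · congr 1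
        apply key
        intro i
        have := congrFun htu i
        simp only [hF] at this
        by_cases h1 : t ≤ i <;> by_cases h2 : u ≤ i <;> simp [h1, h2] at this ⊢
      · exfalso
        -- evaluate at the last index
        have hn : 0 < n := t.pos
        set l : Fin n := ⟨n - 1, by omega⟩
        have := congrFun htu l
        simp only [hF] at this
        have h1 : t ≤ l := by
          have := t.isLt
          show (t : ℕ) ≤ n - 1
          omega
        have h2 : u ≤ l := by
          have := u.isLt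
          show (u : ℕ) ≤ n - 1
          omega
        simp [h1, h2] at this
      · exfalso
        have hn : 0 < n := t.pos
        set l : Fin n := ⟨n - 1, by omega⟩
        have := congrFun htu l
        simp only [hF] at this
        have h1 : t ≤ l := by
          have := t.isLt
          show (t : ℕ) ≤ n - 1
          omega
        have h2 : u ≤ l := by
          have := u.isLt
          show (u : ℕ) ≤ n - 1
          omega
        simp [h1, h2] at this
      · congr 1
        apply key
        intro i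
        have := congrFun htu i
        simp only [hF] at this
        by_cases h1 : t ≤ i <;> by_cases h2 : u ≤ i <;> simp [h1, h2] at this ⊢
    have hsub : Set.range F ⊆ patterns (seq D) (fun i : Fin n => (i : ℤ) * q) := by
      rintro _ ⟨t | t, rfl⟩
      · refine ⟨A - (t : ℤ) * q, ?_⟩
        ext i
        congr 1
        have e : A - (t : ℤ) * q + (i : ℤ) * q = A + ((i : ℤ) - (t : ℤ)) * q := by ring
        have hi := i.isLt
        have ht := t.isLt
        have := hA ((i : ℤ) - (t : ℤ)) (by rw [abs_le]; constructor <;> omega)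
        simp only [hF]
        unfold seq
        rw [e, this]
        by_cases h1 : t ≤ i
        · have h2 : (0 : ℤ) ≤ (i : ℤ) - (t : ℤ) := by
            have : (t : ℕ) ≤ (i : ℕ) := h1
            omega
          simp [h1, h2]
        · have h2 : ¬ (0 : ℤ) ≤ (i : ℤ) - (t : ℤ) := by
            have : ¬ (t : ℕ) ≤ (i : ℕ) := h1
            omega
          rw [if_neg h2, if_neg h1]
          simp
      · refine ⟨B - (t : ℤ) * q, ?_⟩
        ext i
        congr 1
        have e : B - (t : ℤ) * q + (i : ℤ) * q = B + ((i : ℤ) - (t : ℤ)) * q := by ring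
        have hi := i.isLt
        have ht := t.isLt
        have := hB ((i : ℤ) - (t : ℤ)) (by rw [abs_le]; constructor <;> omega)
        simp only [hF]
        unfold seq
        rw [e, this]
        by_cases h1 : t ≤ i
        · have h2 : (0 : ℤ) ≤ (i : ℤ) - (t : ℤ) := by
            have : (t : ℕ) ≤ (i : ℕ) := h1
            omega
          rw [if_pos h2, if_pos h1]
          simp
        · have h2 : ¬ (0 : ℤ) ≤ (i : ℤ) - (t : ℤ) := by
            have : ¬ (t : ℕ) ≤ (i : ℕ) := h1
            omega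
          rw [if_neg h2, if_neg h1]
          simp
    calc (2 * n : ℕ∞) = ENat.card (Fin n ⊕ Fin n) := by
          simp [two_mul]
      _ = (Set.univ : Set (Fin n ⊕ Fin n)).encard := by
          rw [Set.encard_univ]
      _ = (F '' Set.univ).encard := (hinj.encard_image _).symm
      _ ≤ _ := by
          rw [Set.image_univ]
          exact Set.encard_le_encard hsub

lemma seq_sturmian : PatternSturmian (seq D) := by
  refine ⟨h.seq_recurrent, fun n hn => ?_⟩
  apply le_antisymm
  · unfold patternComplexity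
    exact iSup₂_le (fun τ _ => h.patterns_le hn τ)
  · obtain ⟨τ, h1, h2, h3⟩ := h.le_patterns n
    refine h3.trans ?_
    unfold patternComplexity
    exact le_iSup₂_of_le τ ⟨h1, h2⟩ le_rfl

end Chain

/-- The states of the induction. -/
abbrev State (lam : ℝ) := {s : Dat × ℝ × (ℤ → ℝ) // Good lam s.1 s.2.1 s.2.2}

/-- Existence of the chain together with an eigenfunction of the limit potential. -/
theorem exists_chain {lam : ℝ} (hlam : lam ≠ 0) : ∃ (D : ℕ → Dat) (N : ℕ → ℤ) (E : ℝ) (ψ : ℤ → ℝ),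
    Chain D N ∧ Sq ψ ∧ (∃ n, ψ n ≠ 0) ∧ ∀ n, dop (rp lam (lim D)) E ψ n = 0 := by
  obtain ⟨E0, u0, hG0, hu0⟩ := start_good hlam
  set c0 : ℝ := u0 0 ^ 2 with hc0
  have hc0pos : 0 < c0 := by positivity
  have hstep : ∀ (k : ℕ) (s : State lam), ∃ t : State lam, ∃ N : ℤ, (k : ℤ) + 4 ≤ N ∧
      t.1.1 = s.1.1.next N ∧ |t.1.2.1 - s.1.2.1| ≤ c0 / 4 * (1 / 4) ^ k ∧
      |t.1.2.2 0 ^ 2 - s.1.2.2 0 ^ 2| ≤ c0 / 4 * (1 / 4) ^ k := by
    rintro k ⟨⟨D, E, u⟩, hG⟩
    obtain ⟨N, E', u', h1, h2, h3, h4, h5⟩ := step hlam hG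
      (show (0 : ℝ) < c0 / 4 * (1 / 4) ^ k by positivity) ((k : ℤ) + 4)
    exact ⟨⟨(D.next N, E', u'), h3⟩, N, h1, rfl, h4, h5⟩
  choose f Nf hf using hstep
  set S : ℕ → State lam := fun k => Nat.rec ⟨(Dat.start, E0, u0), hG0⟩ (fun k s => f k s) k with hS
  have hS0 : S 0 = ⟨(Dat.start, E0, u0), hG0⟩ := rfl
  have hSs : ∀ k, S (k + 1) = f k (S k) := fun k => rfl
  set D : ℕ → Dat := fun k => (S k).1.1 with hD
  set N : ℕ → ℤ := fun k => Nf k (S k) with hN
  set e : ℕ → ℝ := fun k => (S k).1.2.1 with he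
  set u : ℕ → ℤ → ℝ := fun k => (S k).1.2.2 with hu
  have hgood : ∀ k, Good lam (D k) (e k) (u k) := fun k => (S k).2
  have hch : Chain D N := by
    refine ⟨?_, ?_, ?_⟩
    · exact Dat.start_valid
    · intro k
      have := (hf k (S k)).2.1
      rw [← hSs] at this
      exact this
    · intro k
      exact (hf k (S k)).1
  have hE : ∀ k, dist (e k) (e (k + 1)) ≤ c0 / 4 * (1 / 4) ^ k := by
    intro k
    have := (hf k (S k)).2.2.1
    rw [← hSs] at this
    rw [dist_comm, Real.dist_eq]
    exact this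
  have hU : ∀ k, |u (k + 1) 0 ^ 2 - u k 0 ^ 2| ≤ c0 / 4 * (1 / 4) ^ k := by
    intro k
    have := (hf k (S k)).2.2.2
    rw [← hSs] at this
    exact this
  have hlow : ∀ k, c0 - c0 / 3 * (1 - (1 / 4) ^ k) ≤ u k 0 ^ 2 := by
    intro k
    induction k with
    | zero =>
      have : u 0 0 = u0 0 := rfl
      rw [this, pow_zero]
      simp [hc0]
    | succ k ih =>
      have h1 := (abs_le.mp (hU k)).1
      have h2 : (1 / 4 : ℝ) ^ (k + 1) = 1 / 4 * (1 / 4) ^ k := by rw [pow_succ]; ring
      rw [h2]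
      nlinarith
  obtain ⟨E, hElim⟩ := cauchySeq_tendsto_of_complete
    (cauchySeq_of_le_geometric (1 / 4 : ℝ) (c0 / 4) (by norm_num) hE)
  have hv : ∀ n, Tendsto (fun k => rp lam (D k).pot n) atTop (𝓝 (rp lam (lim D) n)) := by
    intro n
    refine tendsto_const_nhds.congr' ?_
    filter_upwards [eventually_ge_atTop n.natAbs] with k hk
    unfold rp
    have h1 := hch.r_ge k
    have h2 := hch.lt_q k
    have h3 := hch.q0 k
    have h4 : |n| = (n.natAbs : ℤ) := Int.abs_eq_natAbs n
    rw [hch.lim_eq k (n := n) (by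
      have : (n.natAbs : ℤ) ≤ k := by exact_mod_cast hk
      nlinarith)]
  obtain ⟨ψ, s, hs, hpt, hψ1, _, hψ3⟩ := compactness hv hElim (fun k => (hgood k).sq)
    (fun k => (hgood k).one.le)
    (fun n => by
      have : ∀ k, dop (rp lam (D k).pot) (e k) (u k) n = 0 := fun k => (hgood k).eig n
      simp only [this]
      exact tendsto_const_nhds)
  refine ⟨D, N, E, ψ, hch, hψ1, ⟨0, ?_⟩, hψ3⟩
  have hge : 2 / 3 * c0 ≤ ψ 0 ^ 2 := by
    refine ge_of_tendsto ((hpt 0).pow 2) (Eventually.of_forall fun j => ?_)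
    have h1 := hlow (s j)
    have h2 : (0 : ℝ) < (1 / 4) ^ (s j) := by positivity
    nlinarith
  intro h0
  rw [h0] at hge
  have : (0 : ℝ) < 2 / 3 * c0 := by positivity
  norm_num at hge
  linarith

/-- Main theorem: a square-summable eigenfunction. -/
theorem main_fun (lam : ℝ) (hlam : lam ≠ 0) :
    ∃ x : ℤ → Fin 2, PatternSturmian x ∧
      ∃ (E : ℝ) (ψ : ℤ → ℂ), ψ ≠ 0 ∧ Summable (fun m => ‖ψ m‖ ^ 2) ∧
        ∀ m : ℤ, ψ (m + 1) + ψ (m - 1) + (lam : ℂ) * ((x m : ℕ) : ℂ) * ψ m = (E : ℂ) * ψ m := by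
  obtain ⟨D, N, E, u, hch, hu, ⟨m, hm⟩, heig⟩ := exists_chain hlam
  refine ⟨seq D, hch.seq_sturmian, E, fun n => (u n : ℂ), ?_, ?_, ?_⟩
  · intro h0
    have h1 := congrFun h0 m
    simp only [Pi.zero_apply] at h1
    exact hm (by exact_mod_cast h1)
  · refine Summable.congr hu (fun n => ?_)
    rw [Complex.norm_real, Real.norm_eq_abs, sq_abs]
  · intro n
    have h1 := heig n
    unfold dop rp at h1
    rw [← hch.seq_val n] at h1
    have h2 : u (n + 1) + u (n - 1) + lam * (((seq D n : Fin 2) : ℕ) : ℝ) * u n = E * u n := by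
      push_cast at h1
      linarith
    have h7 := congrArg (fun t : ℝ => (t : ℂ)) h2
    simp only [Complex.ofReal_add, Complex.ofReal_mul, Complex.ofReal_natCast] at h7
    exact h7

/-- Operator form of the main theorem. -/
theorem main (lam : ℝ) (hlam : lam ≠ 0) :
    ∃ x : ℤ → Fin 2, PatternSturmian x ∧ ∃ (E : ℝ) (ψ : L2Z ℂ), ψ ≠ 0 ∧
      schroedinger lam x ψ = (E : ℂ) • ψ ∧
      ∀ μ : MeasureTheory.Measure ℝ, IsSpectralMeasure (schroedinger lam x) ψ μ ↔
        μ = ENNReal.ofReal (‖ψ‖ ^ 2) • MeasureTheory.Measure.dirac E := by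
  obtain ⟨D, N, E, u, hch, hu, ⟨m, hm⟩, heig⟩ := exists_chain hlam
  have hmem : Memℓp (fun n => (u n : ℂ)) 2 := by
    rw [memlp_iff]
    refine Summable.congr hu (fun n => ?_)
    rw [Complex.norm_real, Real.norm_eq_abs, sq_abs]
  set ψ : L2Z ℂ := ⟨fun n => (u n : ℂ), hmem⟩ with hψ
  have hψ0 : ψ ≠ 0 := by
    intro h0
    have h1 : (ψ : ℤ → ℂ) m = 0 := by rw [h0]; rfl
    have h2 : ((u m : ℝ) : ℂ) = 0 := h1
    exact hm (by exact_mod_cast h2)
  have hpot : ∀ n, potential lam (seq D) n = rp lam (lim D) n := by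
    intro n
    unfold potential rp
    rw [← hch.seq_val n]
    push_cast
    rfl
  have heig2 : schroedinger lam (seq D) ψ = (E : ℂ) • ψ := by
    ext n
    rw [schroedinger_apply, hpot]
    have h1 := heig n
    unfold dop at h1
    have h2 : u (n + 1) + u (n - 1) + rp lam (lim D) n * u n = E * u n := by linarith
    have h3 : ((E : ℂ) • ψ : L2Z ℂ) n = (E : ℂ) * (u n : ℂ) := rfl
    rw [h3]
    have h4 : (ψ : ℤ → ℂ) (n + 1) = (u (n + 1) : ℂ) := rfl
    have h5 : (ψ : ℤ → ℂ) (n - 1) = (u (n - 1) : ℂ) := rfl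
    have h6 : (ψ : ℤ → ℂ) n = (u n : ℂ) := rfl
    rw [h4, h5, h6]
    have h7 := congrArg (fun t : ℝ => (t : ℂ)) h2
    simp only [Complex.ofReal_add, Complex.ofReal_mul] at h7
    exact h7
  have hsa : IsSelfAdjoint (schroedinger lam (seq D)) := by
    rw [ContinuousLinearMap.isSelfAdjoint_iff_isSymmetric]
    exact schrLin_symm (potential lam (seq D)) (potential_bdd lam (seq D))
  exact ⟨seq D, hch.seq_sturmian, E, ψ, hψ0, heig2, fun μ => spectral_dirac hsa heig2 μ⟩

end Pool.Agent.Lib.MP_940d9d_mp
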