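import Mathlib

/-!
The staircase `⌊n (p/q + 0⁺)⌋` and the two families of integer sequences (`pot` and `gen`)
built from differences of two translates of it.
-/

namespace Pool.Agent.Lib.MP_940d9d_mp

/-- `⌊n (p/q + 0⁺)⌋`. -/
def stair (p q n : ℤ) : ℤ := if 0 ≤ n then n * p / q else (n * p - 1) / q

lemma stair_nonneg {p q n : ℤ} (h : 0 ≤ n) : stair p q n = n * p / q := if_pos h
lemma stair_neg {p q n : ℤ} (h : n < 0) : stair p q n = (n * p - 1) / q := if_neg (not_le.mpr h)

lemma stair_zero (p q : ℤ) : stair p q 0 = 0 := by simp [stair]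

lemma stair_neg_q {p q : ℤ} (hq : 0 < q) : stair p q (-q) = -p - 1 := by
  rw [stair_neg (by omega)]
  have : -q * p - 1 = -1 + -p * q := by ring
  rw [this, Int.add_mul_ediv_right _ _ hq.ne']
  have : (-1 : ℤ) / q = -1 := by
    rw [Int.ediv_eq_iff_of_pos hq]; constructor <;> omega
  rw [this]; ring

lemma stair_add_q {p q : ℤ} (hq : 0 < q) (hc : IsCoprime p q) {n : ℤ} (hn : n ≠ -q) :
    stair p q (n + q) = stair p q n + p := by
  have e1 : (n + q) * p = n * p + p * q := by ring
  rcases lt_or_ge n 0 with h | h
  · rcases lt_or_ge (n + q) 0 with h' | h'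
    · rw [stair_neg h, stair_neg h', e1]
      have : n * p + p * q - 1 = n * p - 1 + p * q := by ring
      rw [this, Int.add_mul_ediv_right _ _ hq.ne']
    · rw [stair_neg h, stair_nonneg h', e1, Int.add_mul_ediv_right _ _ hq.ne']
      have hnd : ¬ q ∣ n * p := by
        intro hd
        have h2 : q ∣ n := hc.symm.dvd_of_dvd_mul_right hd
        have h3 : q ∣ n + q := dvd_add h2 dvd_rfl
        have h4 : n + q < q := by omega
        have h5 := Int.eq_zero_of_dvd_of_nonneg_of_lt h' h4 h3
        omega
      have h6 : 0 < n * p % q := by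
        have h7 := Int.emod_nonneg (n * p) hq.ne'
        have h8 : n * p % q ≠ 0 := fun h => hnd (Int.dvd_of_emod_eq_zero h)
        omega
      have h9 := Int.emod_lt_of_pos (n * p) hq
      have h10 := Int.emod_add_mul_ediv (n * p) q
      have h11 : (n * p - 1) / q = n * p / q := by
        rw [Int.ediv_eq_iff_of_pos hq]
        constructor
        · nlinarith
        · nlinarith
      rw [h11]
  · rw [stair_nonneg h, stair_nonneg (by omega), e1, Int.add_mul_ediv_right _ _ hq.ne']

/-- Renormalization identity for floor functions. -/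
lemma floor_renorm {p q p' q' : ℤ} (hq : 0 < q) (hq' : 0 < q') (h : p' * q - p * q' = 1)
    (n t : ℤ) : (n * p' + t) / q' = (n * p + (n + q * t) / q') / q := by
  have e1 : n * p + (n + q * t) / q' = ((n + q * t) + n * p * q') / q' := by
    rw [Int.add_mul_ediv_right _ _ hq'.ne']; ring
  rw [e1, Int.ediv_ediv_of_nonneg hq'.le]
  have e2 : (n + q * t) + n * p * q' = (n * p' + t) * q := by
    have : p' * q = 1 + p * q' := by linarith
    calc (n + q * t) + n * p * q' = n * (1 + p * q') + q * t := by ring
      _ = n * (p' * q) + q * t := by rw [this]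
      _ = _ := by ring
  rw [e2, Int.mul_ediv_mul_of_pos_left _ _ hq]

section
variable {p q p' q' : ℤ} (hq : 0 < q) (hq' : 0 < q') (h : p' * q - p * q' = 1)
include hq hq' h

lemma stair_base {n : ℤ} (h1 : -q' ≤ n) (h2 : n < q') : n * p' / q' = stair p q n := by
  have := floor_renorm hq hq' h n 0
  rw [add_zero, mul_zero, add_zero] at this
  rw [this]
  rcases lt_or_ge n 0 with h3 | h3
  · rw [stair_neg h3]
    have : n / q' = -1 := by
      rw [Int.ediv_eq_iff_of_pos hq']; constructor <;> omega
    rw [this]; rfl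
  · rw [stair_nonneg h3]
    have : n / q' = 0 := Int.ediv_eq_zero_of_lt h3 h2
    rw [this, add_zero]

lemma stair_pos {i n : ℤ} (hi : 1 ≤ i) (h1 : -q' ≤ n) (h2 : n < q') :
    stair p' q' (n + i * q') = stair p q n + i * p' := by
  have h3 : 0 ≤ n + i * q' := by nlinarith
  rw [stair_nonneg h3, ← stair_base hq hq' h h1 h2]
  have : (n + i * q') * p' = n * p' + i * p' * q' := by ring
  rw [this, Int.add_mul_ediv_right _ _ hq'.ne']

lemma stair_mid {n : ℤ} (h1 : -q' + q ≤ n) (h2 : n < q') : stair p' q' n = stair p q n := by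
  rcases lt_or_ge n 0 with h3 | h3
  · rw [stair_neg h3, stair_neg h3]
    have := floor_renorm hq hq' h n (-1)
    have e : n * p' - 1 = n * p' + -1 := by ring
    rw [e, this]
    have : (n + q * -1) / q' = -1 := by
      rw [Int.ediv_eq_iff_of_pos hq']; constructor <;> omega
    rw [this]; rfl
  · rw [stair_nonneg h3]
    exact stair_base hq hq' h (by omega) h2

lemma stair_negi {i n : ℤ} (hi : i ≤ -1) (h1 : -q' ≤ n) (h2 : n < q' - q) :
    stair p' q' (n + i * q' + q) = stair p q n + i * p' + p := by
  have h3 : n + i * q' + q < 0 := by nlinarith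
  rw [stair_neg h3, ← stair_base hq hq' h h1 (by omega)]
  have : (n + i * q' + q) * p' - 1 = n * p' + (i * p' + p) * q' := by
    linear_combination h
  rw [this, Int.add_mul_ediv_right _ _ hq'.ne']; ring

end

/-- The combinatorial data of one level. -/
structure Dat where
  /-- previous numerator -/
  pm : ℤ
  /-- previous denominator -/
  qm : ℤ
  /-- numerator -/
  p : ℤ
  /-- denominator -/
  q : ℤ
  /-- site of the first jump -/
  a : ℤ
  /-- site of the second jump -/
  b : ℤ
  /-- sign -/
  s : ℤ
  /-- additive constant -/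
  c : ℤ

namespace Dat

/-- The special sequence of a level. -/
def pot (D : Dat) (n : ℤ) : ℤ := D.s * (stair D.p D.q (n - D.a) - stair D.p D.q (n - D.b)) + D.c

/-- The generic sequence of a level. -/
def gen (D : Dat) (n : ℤ) : ℤ :=
  D.s * (stair D.p D.q (n - D.a) - stair D.p D.q (n - D.b - D.q) - D.p) + D.c

/-- The next level. -/
def next (D : Dat) (N : ℤ) : Dat where
  pm := D.p
  qm := D.q
  p := N * D.p - D.pm
  q := N * D.q - D.qm
  a := D.b
  b := D.a + (N * D.q - D.qm) - D.q
  s := -D.s
  c := D.c + D.s * ((N * D.p - D.pm) - D.p)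

/-- The starting level: `pot` is the indicator of `0`. -/
def start : Dat := ⟨-1, 0, 0, 1, 0, 1, 1, 0⟩

/-- Validity of the data. -/
structure Valid (D : Dat) : Prop where
  det : D.p * D.qm - D.pm * D.q = 1
  qm0 : 0 ≤ D.qm
  qmq : D.qm < D.q
  a0 : 0 ≤ D.a
  aq : D.a ≤ D.q
  b0 : 0 ≤ D.b
  bq : D.b ≤ D.q
  ab : D.a ≠ D.b
  s1 : D.s = 1 ∨ D.s = -1
  val : ∀ n, D.pot n = 0 ∨ D.pot n = 1

lemma start_pot (n : ℤ) : start.pot n = if n = 0 then 1 else 0 := by
  unfold pot start stair
  simp only [mul_zero, Int.zero_ediv, zero_sub, Int.ediv_one]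
  split_ifs <;> omega

lemma start_valid : Valid start where
  det := by norm_num [start]
  qm0 := by norm_num [start]
  qmq := by norm_num [start]
  a0 := by norm_num [start]
  aq := by norm_num [start]
  b0 := by norm_num [start]
  bq := by norm_num [start]
  ab := by norm_num [start]
  s1 := by norm_num [start]
  val := by
    intro n
    rw [start_pot]
    split_ifs
    · right; rfl
    · left; rfl

namespace Valid
variable {D : Dat} (hD : Valid D)
include hD

lemma q0 : 0 < D.q := lt_of_le_of_lt hD.qm0 hD.qmq

lemma coprime : IsCoprime D.p D.q := ⟨D.qm, -D.pm, by have := hD.det; linarith⟩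

lemma gen_eq {n : ℤ} (hn : n ≠ D.b) : D.gen n = D.pot n := by
  unfold gen pot
  have := stair_add_q hD.q0 hD.coprime (n := n - D.b - D.q) (by omega)
  have e : n - D.b - D.q + D.q = n - D.b := by ring
  rw [e] at this
  rw [this]; ring

lemma gen_b : D.gen D.b = D.pot D.b + D.s := by
  unfold gen pot
  have e : D.b - D.b - D.q = -D.q := by ring
  rw [e, stair_neg_q hD.q0, sub_self, stair_zero]; ring

lemma gen_eq' {n : ℤ} (hn : n ≠ D.a) : D.gen n = D.pot (n - D.q) := by
  unfold gen pot
  have := stair_add_q hD.q0 hD.coprime (n := n - D.q - D.a) (by omega)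
  have e : n - D.q - D.a + D.q = n - D.a := by ring
  rw [e] at this
  have e2 : n - D.b - D.q = n - D.q - D.b := by ring
  rw [this, e2]; ring

lemma gen_a : D.gen D.a = D.pot (D.a - D.q) + D.s := by
  unfold gen pot
  have e : D.a - D.q - D.a = -D.q := by ring
  have e2 : D.a - D.b - D.q = D.a - D.q - D.b := by ring
  rw [e, e2, stair_neg_q hD.q0, sub_self, stair_zero]; ring

lemma gen_val (n : ℤ) : D.gen n = 0 ∨ D.gen n = 1 := by
  by_cases h : n = D.b
  · have : n ≠ D.a := by rw [h]; exact hD.ab.symm
    rw [hD.gen_eq' this]; exact hD.val _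
  · rw [hD.gen_eq h]; exact hD.val _

section
variable {N : ℤ} (hN : 4 ≤ N)
include hN

lemma next_q : D.q * 3 < (D.next N).q := by
  have := hD.qmq
  have := hD.q0
  show D.q * 3 < N * D.q - D.qm
  nlinarith

lemma next_det : (D.next N).p * D.q - D.p * (D.next N).q = 1 := by
  show (N * D.p - D.pm) * D.q - D.p * (N * D.q - D.qm) = 1
  linear_combination hD.det

lemma next_pot_mid {n : ℤ} (h1 : -(D.next N).q + 2 * D.q ≤ n) (h2 : n < (D.next N).q - D.q) :
    (D.next N).pot n = D.pot n := by
  have hq := hD.q0
  have hqq := hD.next_q hN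
  have hq' : 0 < (D.next N).q := by omega
  have hdet := hD.next_det hN
  have ha0 := hD.a0; have haq := hD.aq; have hb0 := hD.b0; have hbq := hD.bq
  have e1 := stair_mid hq hq' hdet (n := n - D.b) (by omega) (by omega)
  have e2 := stair_negi hq hq' hdet (i := -1) (n := n - D.a) le_rfl (by omega) (by omega)
  show -D.s * (stair (D.next N).p (D.next N).q (n - D.b) -
    stair (D.next N).p (D.next N).q (n - (D.a + (D.next N).q - D.q))) +
    (D.c + D.s * ((D.next N).p - D.p)) = _
  have e3 : n - (D.a + (D.next N).q - D.q) = n - D.a + -1 * (D.next N).q + D.q := by ring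
  rw [e3, e2, e1]
  unfold pot
  ring

lemma next_pot_neg {i n : ℤ} (hi : i ≤ -1) (h1 : -(D.next N).q + 2 * D.q ≤ n)
    (h2 : n < (D.next N).q - D.q) : (D.next N).pot (n + i * (D.next N).q) = D.gen n := by
  have hq := hD.q0
  have hqq := hD.next_q hN
  have hq' : 0 < (D.next N).q := by omega
  have hdet := hD.next_det hN
  have ha0 := hD.a0; have haq := hD.aq; have hb0 := hD.b0; have hbq := hD.bq
  have e1 := stair_negi hq hq' hdet (i := i) (n := n - D.b - D.q) hi (by omega) (by omega)
  have e2 := stair_negi hq hq' hdet (i := i - 1) (n := n - D.a) (by omega) (by omega) (by omega)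
  show -D.s * (stair (D.next N).p (D.next N).q (n + i * (D.next N).q - D.b) -
    stair (D.next N).p (D.next N).q (n + i * (D.next N).q - (D.a + (D.next N).q - D.q))) +
    (D.c + D.s * ((D.next N).p - D.p)) = _
  have e3 : n + i * (D.next N).q - (D.a + (D.next N).q - D.q) =
    n - D.a + (i - 1) * (D.next N).q + D.q := by ring
  have e4 : n + i * (D.next N).q - D.b = n - D.b - D.q + i * (D.next N).q + D.q := by ring
  rw [e3, e4, e2, e1]
  unfold gen
  ring

lemma next_pot_pos {i n : ℤ} (hi : 1 ≤ i) (h1 : -(D.next N).q + 2 * D.q ≤ n)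
    (h2 : n < (D.next N).q) : (D.next N).pot (n + i * (D.next N).q - D.q) = D.gen n := by
  have hq := hD.q0
  have hqq := hD.next_q hN
  have hq' : 0 < (D.next N).q := by omega
  have hdet := hD.next_det hN
  have ha0 := hD.a0; have haq := hD.aq; have hb0 := hD.b0; have hbq := hD.bq
  have e1 := stair_pos hq hq' hdet (i := i) (n := n - D.b - D.q) hi (by omega) (by omega)
  have e2 : stair (D.next N).p (D.next N).q (n - D.a + (i - 1) * (D.next N).q) =
      stair D.p D.q (n - D.a) + (i - 1) * (D.next N).p := by
    rcases eq_or_lt_of_le hi with h | h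
    · rw [← h, sub_self, zero_mul, zero_mul, add_zero, add_zero]
      exact stair_mid hq hq' hdet (by omega) (by omega)
    · exact stair_pos hq hq' hdet (by omega) (by omega) (by omega)
  show -D.s * (stair (D.next N).p (D.next N).q (n + i * (D.next N).q - D.q - D.b) -
    stair (D.next N).p (D.next N).q (n + i * (D.next N).q - D.q - (D.a + (D.next N).q - D.q))) +
    (D.c + D.s * ((D.next N).p - D.p)) = _
  have e3 : n + i * (D.next N).q - D.q - (D.a + (D.next N).q - D.q) =
    n - D.a + (i - 1) * (D.next N).q := by ring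
  have e4 : n + i * (D.next N).q - D.q - D.b = n - D.b - D.q + i * (D.next N).q := by ring
  rw [e3, e4, e2, e1]
  unfold gen
  ring

/-- Every short window of the next special sequence is a window of the old special sequence at
the same place, or a window of the old generic sequence. -/
lemma next_window {s L : ℤ} (hL : 0 ≤ L) (hL2 : L + 3 * D.q ≤ (D.next N).q) :
    (-(D.next N).q + 2 * D.q ≤ s ∧ s + L < (D.next N).q - D.q) ∨
      ∃ t, ∀ n, s ≤ n → n < s + L → (D.next N).pot n = D.gen (n + t) := by
  have hq := hD.q0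
  have hqq := hD.next_q hN
  have hq' : 0 < (D.next N).q := by omega
  set q' := (D.next N).q with hq'def
  set i := (s - 2 * D.q) / q' + 1 with hi
  have h1 : (i - 1) * q' ≤ s - 2 * D.q := by
    have := Int.ediv_mul_le (s - 2 * D.q) hq'.ne'
    have e : i - 1 = (s - 2 * D.q) / q' := by omega
    rw [e]; exact this
  have h2 : s - 2 * D.q < i * q' := by
    have := Int.lt_ediv_add_one_mul_self (s - 2 * D.q) hq'
    exact this
  have e1 : (i - 1) * q' = i * q' - q' := by ring
  rcases lt_trichotomy i 0 with h | h | h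
  · right
    refine ⟨-(i * q'), fun n hn1 hn2 => ?_⟩
    have := hD.next_pot_neg hN (i := i) (n := n + -(i * q')) (by omega) (by omega) (by omega)
    rw [← this, neg_add_cancel_right]
  · left
    rw [h, zero_mul] at h2
    rw [h] at h1
    constructor <;> omega
  · right
    refine ⟨-(i * q') + D.q, fun n hn1 hn2 => ?_⟩
    have := hD.next_pot_pos hN (i := i) (n := n + (-(i * q') + D.q)) (by omega) (by omega)
      (by omega)
    rw [← this]
    congr 1
    ring

lemma next_valid : Valid (D.next N) where
  det := by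
    have := hD.next_det hN
    exact this
  qm0 := hD.q0.le
  qmq := by
    have := hD.next_q hN
    have := hD.q0
    show D.q < (D.next N).q
    omega
  a0 := hD.b0
  aq := by
    have := hD.next_q hN
    have := hD.q0
    have := hD.bq
    show D.b ≤ (D.next N).q
    omega
  b0 := by
    have := hD.next_q hN
    have := hD.q0
    have := hD.a0
    show 0 ≤ D.a + (D.next N).q - D.q
    omega
  bq := by
    have := hD.next_q hN
    have := hD.q0
    have := hD.aq
    show D.a + (D.next N).q - D.q ≤ (D.next N).q
    omega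
  ab := by
    have := hD.next_q hN
    have := hD.q0
    have := hD.a0
    have := hD.bq
    show D.b ≠ D.a + (D.next N).q - D.q
    omega
  s1 := by
    show -D.s = 1 ∨ -D.s = -1
    rcases hD.s1 with h | h
    · right; omega
    · left; omega
  val := by
    intro n
    have hq := hD.q0
    have hqq := hD.next_q hN
    rcases hD.next_window hN (s := n) (L := 1) (by norm_num) (by omega) with ⟨h1, h2⟩ | ⟨t, ht⟩
    · rw [hD.next_pot_mid hN h1 (by omega)]; exact hD.val n
    · rw [ht n le_rfl (by omega)]; exact hD.gen_val _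

end

end Valid

end Dat

end Pool.Agent.Lib.MP_940d9d_mp
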