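import Pool.Agent.Lib.MP_940d9d_mp.Step
import Pool.Agent.Lib.MP_940d9d_mp.Stair

/-!
The inductive construction of the data, energies and eigenfunctions.
-/

open scoped ENNReal BigOperators
open Filter Topology

namespace Pool.Agent.Lib.MP_940d9d_mp

/-- the real potential `λ f` -/
def rp (lam : ℝ) (f : ℤ → ℤ) : ℤ → ℝ := fun n => lam * (f n : ℝ)

lemma rp_bound (lam : ℝ) {f : ℤ → ℤ} (hf : ∀ n, f n = 0 ∨ f n = 1) (n : ℤ) :
    |rp lam f n| ≤ |lam| := by
  unfold rp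
  rcases hf n with h | h <;> simp [h]

/-- The state of the induction. -/
structure Good (lam : ℝ) (D : Dat) (E : ℝ) (u : ℤ → ℝ) : Prop where
  valid : D.Valid
  sq : Sq u
  one : n2 u = 1
  eig : ∀ n, dop (rp lam D.pot) E u n = 0
  gap : ∃ κ > 0, Gap (rp lam D.gen) E κ

lemma no_eigen {lam : ℝ} (hlam : lam ≠ 0) {D : Dat} (hD : D.Valid) {E : ℝ} {u : ℤ → ℝ}
    (hu : Sq u) (h1 : n2 u = 1) (heig : ∀ n, dop (rp lam D.pot) E u n = 0) :
    ∀ ψ : ℤ → ℝ, Sq ψ → (∀ n, dop (rp lam D.gen) E ψ n = 0) → ∀ n, ψ n = 0 := by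
  intro ψ hψ hψ2
  by_contra hcon
  push Not at hcon
  have hu0 : ∃ n, u n ≠ 0 := by
    by_contra hc
    push Not at hc
    have : n2 u = 0 := by unfold n2; simp [hc]
    linarith
  have hs : (D.s : ℝ) ≠ 0 := by
    rcases hD.s1 with h | h <;> simp [h]
  refine nonres hu hψ heig hψ2 hu0 hcon (γ := D.b) (φ := D.a) hD.q0 ?_ ?_ ?_ ?_
  · intro n hn; unfold rp; rw [hD.gen_eq hn]
  · unfold rp; rw [hD.gen_b]; push_cast
    intro h
    have : lam * (D.s : ℝ) = 0 := by linarith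
    exact (mul_ne_zero hlam hs) this
  · intro n hn; unfold rp; rw [hD.gen_eq' hn]
  · unfold rp; rw [hD.gen_a]; push_cast
    intro h
    have : lam * (D.s : ℝ) = 0 := by linarith
    exact (mul_ne_zero hlam hs) this

lemma exists_M {κ : ℝ} (hκ : 0 < κ) : ∃ M : ℕ, 1 ≤ M ∧ 64 / (M : ℝ) ^ 2 ≤ κ := by
  obtain ⟨M, hM⟩ := exists_nat_gt (64 / κ + 1)
  have hc : 0 < 64 / κ := by positivity
  have h1 : (1 : ℝ) ≤ M := by linarith
  refine ⟨M, by exact_mod_cast h1, ?_⟩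
  rw [div_le_iff₀ (by positivity)]
  have h2 : 64 / κ ≤ (M : ℝ) ^ 2 := by nlinarith
  rw [div_le_iff₀ (by positivity)] at h2
  linarith

/-! ### the starting level -/

lemma gap_free {E : ℝ} (hE : 4 < E ^ 2) : ∃ κ > 0, Gap (fun _ => 0) E κ := by
  set s : ℝ := (E ^ 2 - 4) / 8 with hs
  have hs0 : 0 < s := by rw [hs]; linarith
  refine ⟨(E ^ 2 - 4) / 2 / (1 + 1 / s), by
    have : 0 < 1 + 1 / s := by positivity
    have h2 : 0 < (E ^ 2 - 4) / 2 := by linarith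
    exact div_pos h2 this, ?_⟩
  intro φ hφ
  set d := dop (fun _ => (0 : ℝ)) E φ with hd
  have hdS : Sq d := hφ.dop (B := 0) (by simp) E
  have h1 : Sq (fun n => φ (n + 1)) := hφ.shift 1
  have h2 : Sq (fun n => φ (n - 1)) := hφ.shift (-1)
  have e1 : ∑' n, φ (n + 1) ^ 2 = n2 φ := n2_shift φ 1
  have e2 : ∑' n, φ (n - 1) ^ 2 = n2 φ := n2_shift φ (-1)
  have key : ∀ n, E ^ 2 * φ n ^ 2 ≤ (1 + s) * 2 * φ (n + 1) ^ 2 + (1 + s) * 2 * φ (n - 1) ^ 2 +
      (1 + 1 / s) * d n ^ 2 := by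
    intro n
    have e : E * φ n = φ (n + 1) + φ (n - 1) - d n := by
      rw [hd]; unfold dop; ring
    have h3 : (E * φ n) ^ 2 ≤ (1 + s) * (φ (n + 1) + φ (n - 1)) ^ 2 + (1 + 1 / s) * d n ^ 2 := by
      rw [e]
      set x := φ (n + 1) + φ (n - 1)
      set y := d n
      have h4 : 0 ≤ (s * x + y) ^ 2 / s := by positivity
      have h5 : (s * x + y) ^ 2 / s = s * x ^ 2 + 2 * x * y + 1 / s * y ^ 2 := by
        field_simp; ring
      nlinarith
    have h6 : (φ (n + 1) + φ (n - 1)) ^ 2 ≤ 2 * φ (n + 1) ^ 2 + 2 * φ (n - 1) ^ 2 := by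
      nlinarith [sq_nonneg (φ (n + 1) - φ (n - 1))]
    have h7 : (1 + s) * (φ (n + 1) + φ (n - 1)) ^ 2 ≤
        (1 + s) * (2 * φ (n + 1) ^ 2 + 2 * φ (n - 1) ^ 2) :=
      mul_le_mul_of_nonneg_left h6 (by positivity)
    nlinarith
  have hsum : E ^ 2 * n2 φ ≤ (1 + s) * 2 * n2 φ + (1 + s) * 2 * n2 φ + (1 + 1 / s) * n2 d := by
    have a := h1.mul_left ((1 + s) * 2)
    have b := h2.mul_left ((1 + s) * 2)
    have c := hdS.mul_left (1 + 1 / s)
    have := Summable.tsum_le_tsum key (hφ.mul_left (E ^ 2)) ((a.add b).add c)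
    rw [(a.add b).tsum_add c, a.tsum_add b, tsum_mul_left, tsum_mul_left, tsum_mul_left,
      tsum_mul_left, e1, e2] at this
    exact this
  rw [div_mul_eq_mul_div, div_le_iff₀ (by positivity)]
  have : (E ^ 2 - 4) / 2 = E ^ 2 - 4 * (1 + s) := by rw [hs]; ring
  rw [this]
  nlinarith

lemma exists_rho {lam : ℝ} (hlam : lam ≠ 0) : ∃ ρ : ℝ, ρ ≠ 0 ∧ |ρ| < 1 ∧ ρ ^ 2 + lam * ρ = 1 := by
  have key : ∀ l : ℝ, 0 < l → ∃ ρ : ℝ, 0 < ρ ∧ ρ < 1 ∧ ρ ^ 2 + l * ρ = 1 := by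
    intro l hl
    have h0 : 0 ≤ l ^ 2 + 4 := by positivity
    have hsq := Real.sq_sqrt h0
    have h1 : l < Real.sqrt (l ^ 2 + 4) := by
      apply Real.lt_sqrt_of_sq_lt; linarith
    have h2 : Real.sqrt (l ^ 2 + 4) < l + 2 := by
      rw [Real.sqrt_lt' (by linarith)]; nlinarith
    refine ⟨(-l + Real.sqrt (l ^ 2 + 4)) / 2, by linarith, by linarith, ?_⟩
    nlinarith
  rcases lt_or_gt_of_ne hlam with h | h
  · obtain ⟨ρ, h1, h2, h3⟩ := key (-lam) (by linarith)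
    refine ⟨-ρ, neg_ne_zero.mpr h1.ne', ?_, ?_⟩
    · rw [abs_neg, abs_of_pos h1]; exact h2
    · nlinarith
  · obtain ⟨ρ, h1, h2, h3⟩ := key lam h
    exact ⟨ρ, h1.ne', by rw [abs_of_pos h1]; exact h2, h3⟩

lemma start_gen (n : ℤ) (h0 : n ≠ 0) (h1 : n ≠ 1) : Dat.start.gen n = 0 := by
  rw [Dat.start_valid.gen_eq (show n ≠ Dat.start.b from h1), Dat.start_pot, if_neg h0]

lemma start_good {lam : ℝ} (hlam : lam ≠ 0) : ∃ E u, Good lam Dat.start E u ∧ u 0 ≠ 0 := by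
  obtain ⟨ρ, hρ0, hρ1, hρ⟩ := exists_rho hlam
  set E : ℝ := ρ + 1 / ρ with hE
  set w : ℤ → ℝ := fun n => ρ ^ n.natAbs with hw
  have hwSq : Sq w := by
    unfold Sq
    have h1 : Summable (fun n : ℕ => (ρ ^ 2) ^ n) := by
      apply summable_geometric_of_abs_lt_one
      rw [abs_pow]
      exact pow_lt_one₀ (abs_nonneg _) hρ1 (by norm_num)
    apply Summable.of_nat_of_neg
    · refine h1.congr (fun n => ?_)
      simp only [hw, Int.natAbs_natCast]
      rw [← pow_mul, ← pow_mul, mul_comm]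
    · refine h1.congr (fun n => ?_)
      simp only [hw, Int.natAbs_neg, Int.natAbs_natCast]
      rw [← pow_mul, ← pow_mul, mul_comm]
  have hsol : ∀ n, dop (rp lam Dat.start.pot) E w n = 0 := by
    have hinv : ρ * (1 / ρ) = 1 := by field_simp
    intro n
    unfold dop rp
    rw [Dat.start_pot]
    simp only [hw]
    rcases lt_trichotomy n 0 with h | h | h
    · obtain ⟨k, rfl⟩ : ∃ k : ℕ, n = -((k : ℤ) + 1) := ⟨(-n - 1).toNat, by omega⟩
      have e1 : (-((k : ℤ) + 1) + 1).natAbs = k := by omega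
      have e2 : (-((k : ℤ) + 1) - 1).natAbs = k + 2 := by omega
      have e3 : (-((k : ℤ) + 1)).natAbs = k + 1 := by omega
      rw [e1, e2, e3, if_neg (by omega), hE]
      push_cast
      have : ρ ^ k + ρ ^ (k + 2) + lam * 0 * ρ ^ (k + 1) - (ρ + 1 / ρ) * ρ ^ (k + 1) =
        ρ ^ k * (1 - ρ * (1 / ρ)) := by ring
      rw [this, hinv]; ring
    · subst h
      have e1 : ((0 : ℤ) + 1).natAbs = 1 := rfl
      have e2 : ((0 : ℤ) - 1).natAbs = 1 := rfl
      have e3 : (0 : ℤ).natAbs = 0 := rfl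
      rw [e1, e2, e3, if_pos rfl, hE]
      push_cast
      have : ρ ^ 1 + ρ ^ 1 + lam * 1 * ρ ^ 0 - (ρ + 1 / ρ) * ρ ^ 0 = (ρ ^ 2 + lam * ρ - 1) / ρ := by
        field_simp; ring
      rw [this, hρ, sub_self, zero_div]
    · obtain ⟨k, rfl⟩ : ∃ k : ℕ, n = (k : ℤ) + 1 := ⟨(n - 1).toNat, by omega⟩
      have e1 : ((k : ℤ) + 1 + 1).natAbs = k + 2 := by omega
      have e2 : ((k : ℤ) + 1 - 1).natAbs = k := by omega
      have e3 : ((k : ℤ) + 1).natAbs = k + 1 := by omega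
      rw [e1, e2, e3, if_neg (by omega), hE]
      push_cast
      have : ρ ^ (k + 2) + ρ ^ k + lam * 0 * ρ ^ (k + 1) - (ρ + 1 / ρ) * ρ ^ (k + 1) =
        ρ ^ k * (1 - ρ * (1 / ρ)) := by ring
      rw [this, hinv]; ring
  have hw0 : w 0 = 1 := by simp [hw]
  have hpos : 0 < n2 w := n2_pos hwSq ⟨0, by rw [hw0]; norm_num⟩
  obtain ⟨a, b, _⟩ := normalize hwSq hpos (rp lam Dat.start.pot) E
  set u : ℤ → ℝ := fun n => (Real.sqrt (n2 w))⁻¹ * w n with hu
  have husol : ∀ n, dop (rp lam Dat.start.pot) E u n = 0 := by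
    intro n
    rw [hu, dop_const_mul]; simp [hsol n]
  have hE4 : 4 < E ^ 2 := by
    have h1 : E ^ 2 - 4 = (ρ - 1 / ρ) ^ 2 := by rw [hE]; field_simp; ring
    have h2 : ρ - 1 / ρ = -lam := by
      field_simp; linarith
    rw [h2] at h1
    have : 0 < lam ^ 2 := by positivity
    nlinarith
  refine ⟨E, u, ⟨Dat.start_valid, a, b, husol, ?_⟩, ?_⟩
  · obtain ⟨κ, hκ, hgap⟩ := gap_free hE4
    obtain ⟨M, hM, hM2⟩ := exists_M (show 0 < κ / 4 by positivity)
    refine gap_of_no_eigen (g := fun _ => 0) (v := rp lam Dat.start.gen) (B := |lam|) (by simp)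
      (rp_bound lam Dat.start_valid.gen_val) hκ hgap hM hM2 (K := 2 * M + 1) ?_
      (no_eigen hlam Dat.start_valid a b husol)
    intro j
    by_cases hj : |j| + (M : ℤ) ≤ 2 * M + 1
    · right; exact hj
    · left
      refine ⟨0, fun n hn => ?_⟩
      unfold rp
      have hj1 : (M : ℤ) + 1 < |j| := by omega
      have hn1 := abs_le.mp hn
      have h0 : n ≠ 0 := by
        rintro rfl
        rcases lt_abs.mp hj1 with h | h <;> omega
      have h1 : n ≠ 1 := by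
        rintro rfl
        rcases lt_abs.mp hj1 with h | h <;> omega
      rw [start_gen n h0 h1]; simp
  · rw [hu]
    simp only [hw0, mul_one]
    exact inv_ne_zero (Real.sqrt_ne_zero'.mpr hpos)

/-! ### the inductive step -/

lemma next_q_ge {D : Dat} (hD : D.Valid) (N : ℤ) : (N - 1) * D.q ≤ (D.next N).q := by
  show (N - 1) * D.q ≤ N * D.q - D.qm
  have := hD.qmq
  nlinarith

lemma win_pot {D : Dat} (hD : D.Valid) {N : ℤ} (hN : 4 ≤ N) (lam : ℝ) {M : ℕ}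
    (hM : 2 * (M : ℤ) + 1 + 3 * D.q ≤ (D.next N).q) :
    Win (rp lam D.gen) (rp lam (D.next N).pot) M (2 * M + D.q) := by
  intro j
  by_cases hj : |j| + (M : ℤ) ≤ 2 * M + D.q
  · right; exact hj
  · left
    have hj1 : (M : ℤ) + D.q < |j| := by omega
    rcases hD.next_window hN (s := j - M) (L := 2 * M + 1) (by positivity) hM with
      ⟨h1, h2⟩ | ⟨t, ht⟩
    · refine ⟨0, fun n hn => ?_⟩
      have hn1 := abs_le.mp hn
      unfold rp
      rw [hD.next_pot_mid hN (by omega) (by omega), add_zero, hD.gen_eq]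
      have := hD.b0
      have := hD.bq
      rcases lt_abs.mp hj1 with h | h <;> omega
    · refine ⟨t, fun n hn => ?_⟩
      have hn1 := abs_le.mp hn
      unfold rp
      rw [ht n (by omega) (by omega)]

lemma win_gen {D : Dat} (hD : D.Valid) {N : ℤ} (hN : 4 ≤ N) (lam : ℝ) {M : ℕ}
    (hM : 2 * (M : ℤ) + 1 + 3 * D.q ≤ (D.next N).q) :
    Win (rp lam D.gen) (rp lam (D.next N).gen) M (2 * M + D.q + (D.next N).q) := by
  intro j
  have hq := hD.q0
  have hqq := hD.next_q hN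
  by_cases hj : |j| + (M : ℤ) ≤ 2 * M + D.q + (D.next N).q
  · right; exact hj
  · left
    have hj1 : (M : ℤ) + D.q + (D.next N).q < |j| := by omega
    rcases win_pot hD hN lam hM j with ⟨t, ht⟩ | h
    · refine ⟨t, fun n hn => ?_⟩
      rw [← ht n hn]
      have hn1 := abs_le.mp hn
      have hV := hD.next_valid hN
      unfold rp
      rw [hV.gen_eq]
      have := hV.b0
      have := hV.bq
      rcases lt_abs.mp hj1 with h | h <;> omega
    · exfalso; omega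

lemma step {lam : ℝ} (hlam : lam ≠ 0) {D : Dat} {E : ℝ} {u : ℤ → ℝ} (hG : Good lam D E u)
    {ε : ℝ} (hε : 0 < ε) (T : ℤ) : ∃ (N : ℤ) (E' : ℝ) (u' : ℤ → ℝ), T ≤ N ∧ 4 ≤ N ∧
      Good lam (D.next N) E' u' ∧ |E' - E| ≤ ε ∧ |u' 0 ^ 2 - u 0 ^ 2| ≤ ε := by
  obtain ⟨hD, hu, hu1, heig, κ, hκ, hgap⟩ := hG
  have hq := hD.q0
  have hlarge : ∀ C : ℤ, ∀ᶠ N : ℕ in atTop, C ≤ (D.next ((N : ℤ) + 4)).q := by
    intro C
    filter_upwards [eventually_ge_atTop C.toNat] with N hN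
    have h1 := next_q_ge hD ((N : ℤ) + 4)
    have h2 : C ≤ N := by omega
    have h3 : (0 : ℤ) ≤ (N : ℤ) := Int.natCast_nonneg N
    nlinarith
  have hp := persist (x := rp lam D.pot) (g := rp lam D.gen) (B := |lam|)
    (rp_bound lam hD.gen_val) (rp_bound lam hD.val)
    (v := fun N => rp lam (D.next ((N : ℤ) + 4)).pot)
    (fun N n => rp_bound lam (hD.next_valid (by omega)).val n)
    (by
      intro n
      refine tendsto_const_nhds.congr' ?_
      filter_upwards [hlarge (|n| + 2 * D.q + 1)] with N hN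
      unfold rp
      have h1 := le_abs_self n
      have h2 := neg_le_abs n
      rw [hD.next_pot_mid (by omega) (by omega) (by omega)])
    (by
      intro M
      refine ⟨2 * M + D.q, ?_⟩
      filter_upwards [hlarge (2 * (M : ℤ) + 1 + 3 * D.q)] with N hN
      exact win_pot hD (by omega) lam hN)
    hκ hgap hu hu1 heig hε {0}
  obtain ⟨M, hM, hM2⟩ := exists_M (show 0 < κ / 4 / 4 by positivity)
  obtain ⟨N, ⟨E', ψ, h1, h2, h3, h4, h5, h6⟩, hN2, hN3⟩ :=
    (hp.and ((hlarge (2 * (M : ℤ) + 1 + 3 * D.q)).and (eventually_ge_atTop T.toNat))).exists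
  have hN4 : (4 : ℤ) ≤ (N : ℤ) + 4 := by omega
  refine ⟨(N : ℤ) + 4, E', ψ, by omega, hN4, ⟨hD.next_valid hN4, h2, h3, h4, ?_⟩, h1,
    h6 0 (Finset.mem_singleton_self 0)⟩
  exact gap_of_no_eigen (rp_bound lam hD.gen_val) (rp_bound lam (hD.next_valid hN4).gen_val)
    (by positivity) h5 hM hM2 (win_gen hD hN4 lam hN2)
    (no_eigen hlam (hD.next_valid hN4) h2 h3 h4)

end Pool.Agent.Lib.MP_940d9d_mp
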