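import Pool.Agent.Lib.MP_940d9d_mp.Analysis

/-!
Localization: a gap for the potential `g` is inherited by any potential `v` which locally
looks like translates of `g`, away from a finite region.
-/

open scoped ENNReal BigOperators
open Filter Topology

namespace Pool.Agent.Lib.MP_940d9d_mp

/-- Tent function of half-width `M`. -/
noncomputable def tent (M : ℕ) (i : ℤ) : ℝ := max 0 (1 - |(i : ℝ)| / M)

lemma tent_nonneg (M : ℕ) (i : ℤ) : 0 ≤ tent M i := le_max_left _ _

lemma tent_eq_zero {M : ℕ} (hM : 1 ≤ M) {i : ℤ} (h : (M : ℤ) ≤ |i|) : tent M i = 0 := by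
  unfold tent
  apply max_eq_left
  have hM' : (0 : ℝ) < M := by exact_mod_cast hM
  have h' : (M : ℝ) ≤ |(i : ℝ)| := by exact_mod_cast h
  have : 1 ≤ |(i : ℝ)| / M := by rw [le_div_iff₀ hM']; linarith
  linarith

lemma tent_diff {M : ℕ} (hM : 1 ≤ M) (i k : ℤ) (hk : |i - k| ≤ 1) :
    (tent M i - tent M k) ^ 2 ≤ 1 / (M : ℝ) ^ 2 := by
  have hM' : (0 : ℝ) < M := by exact_mod_cast hM
  have h1 : |tent M i - tent M k| ≤ 1 / M := by
    unfold tent
    refine (abs_max_sub_max_le_max _ _ _ _).trans ?_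
    rw [sub_self, abs_zero]
    apply max_le (by positivity)
    have h2 : (1 - |(i : ℝ)| / M) - (1 - |(k : ℝ)| / M) = (|(k : ℝ)| - |(i : ℝ)|) / M := by
      field_simp; ring
    rw [h2, abs_div, abs_of_pos hM']
    apply div_le_div_of_nonneg_right _ hM'.le
    have h3 : |(|(k : ℝ)| - |(i : ℝ)|)| ≤ |(k : ℝ) - i| := abs_abs_sub_abs_le_abs_sub _ _
    have h4 : |(k : ℝ) - i| ≤ 1 := by
      rw [abs_sub_comm]; exact_mod_cast hk
    linarith
  have h0 := abs_nonneg (tent M i - tent M k)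
  rw [← sq_abs, ← one_div_pow]
  exact pow_le_pow_left₀ h0 h1 2

/-- The total mass of the squared tent. -/
noncomputable def tA (M : ℕ) : ℝ≥0∞ := ∑' i : ℤ, ENNReal.ofReal (tent M i ^ 2)

/-- The total mass of the squared increments of the tent. -/
noncomputable def tB (M : ℕ) : ℝ≥0∞ := ∑' i : ℤ, ENNReal.ofReal ((tent M (i + 1) - tent M i) ^ 2)

lemma tA_ne_top {M : ℕ} (hM : 1 ≤ M) : tA M ≠ ⊤ := by
  unfold tA
  rw [tsum_eq_sum (s := Finset.Icc (-(M : ℤ)) M)]
  · exact ENNReal.sum_ne_top.mpr (fun _ _ => ENNReal.ofReal_ne_top)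
  · intro b hb
    have : (M : ℤ) ≤ |b| := by
      rw [Finset.mem_Icc, not_and_or] at hb
      rcases hb with hb | hb
      · rw [le_abs]; right; omega
      · rw [le_abs]; left; omega
    rw [tent_eq_zero hM this]; simp

lemma tB_le {M : ℕ} (hM : 1 ≤ M) : tB M ≤ ENNReal.ofReal (2 / M) := by
  have hM' : (0 : ℝ) < M := by exact_mod_cast hM
  unfold tB
  rw [tsum_eq_sum (s := Finset.Ico (-(M : ℤ)) M)]
  · calc ∑ i ∈ Finset.Ico (-(M : ℤ)) M, ENNReal.ofReal ((tent M (i + 1) - tent M i) ^ 2)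
        ≤ ∑ i ∈ Finset.Ico (-(M : ℤ)) M, ENNReal.ofReal (1 / (M : ℝ) ^ 2) := by
          apply Finset.sum_le_sum
          intro i _
          apply ENNReal.ofReal_le_ofReal
          apply tent_diff hM
          simp
      _ = ENNReal.ofReal (2 / M) := by
          rw [Finset.sum_const, Int.card_Ico, nsmul_eq_mul]
          have : ((M : ℤ) - -(M : ℤ)).toNat = 2 * M := by omega
          rw [this, ← ENNReal.ofReal_natCast, ← ENNReal.ofReal_mul (by positivity)]
          congr 1
          push_cast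
          field_simp
  · intro b hb
    rw [Finset.mem_Ico, not_and_or] at hb
    have h1 : (M : ℤ) ≤ |b| := by
      rcases hb with hb | hb
      · rw [le_abs]; right; omega
      · rw [le_abs]; left; omega
    have h2 : (M : ℤ) ≤ |b + 1| := by
      rcases hb with hb | hb
      · rw [le_abs]; right; omega
      · rw [le_abs]; left; omega
    rw [tent_eq_zero hM h1, tent_eq_zero hM h2]; simp

lemma le_tA {M : ℕ} (hM : 1 ≤ M) : ENNReal.ofReal ((M : ℝ) / 4) ≤ tA M := by
  have hM' : (0 : ℝ) < M := by exact_mod_cast hM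
  unfold tA
  refine le_trans ?_ (ENNReal.sum_le_tsum (Finset.Icc (-((M / 2 : ℕ) : ℤ)) ((M / 2 : ℕ) : ℤ)))
  calc ENNReal.ofReal ((M : ℝ) / 4)
      ≤ ∑ i ∈ Finset.Icc (-((M / 2 : ℕ) : ℤ)) ((M / 2 : ℕ) : ℤ), ENNReal.ofReal (1 / 4) := by
        rw [Finset.sum_const, Int.card_Icc, nsmul_eq_mul]
        rw [← ENNReal.ofReal_natCast, ← ENNReal.ofReal_mul (by positivity)]
        apply ENNReal.ofReal_le_ofReal
        have : M ≤ (((M / 2 : ℕ) : ℤ) + 1 - -((M / 2 : ℕ) : ℤ)).toNat := by omega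
        have h2 : (M : ℝ) ≤ ((((M / 2 : ℕ) : ℤ) + 1 - -((M / 2 : ℕ) : ℤ)).toNat : ℝ) := by
          exact_mod_cast this
        linarith
    _ ≤ _ := by
        apply Finset.sum_le_sum
        intro i hi
        apply ENNReal.ofReal_le_ofReal
        rw [Finset.mem_Icc] at hi
        have h1 : |i| ≤ ((M / 2 : ℕ) : ℤ) := abs_le.mpr hi
        have h2 : (|i| : ℤ) * 2 ≤ M := by omega
        have h3 : |(i : ℝ)| * 2 ≤ M := by exact_mod_cast h2
        have h4 : |(i : ℝ)| / M ≤ 1 / 2 := by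
          rw [div_le_iff₀ hM']; linarith
        have h5 : 1 / 2 ≤ tent M i := by
          unfold tent
          apply le_max_of_le_right; linarith
        nlinarith

/-- mass on `[-K, K]` -/
noncomputable def mass (K : ℤ) (φ : ℤ → ℝ) : ℝ := ∑ n ∈ Finset.Icc (-K) K, φ n ^ 2

lemma mass_nonneg (K : ℤ) (φ : ℤ → ℝ) : 0 ≤ mass K φ := Finset.sum_nonneg fun _ _ => sq_nonneg _

lemma tsum_tent (M : ℕ) (n : ℤ) : ∑' j : ℤ, ENNReal.ofReal (tent M (n - j) ^ 2) = tA M :=
  (Equiv.subLeft n).tsum_eq (fun i => ENNReal.ofReal (tent M i ^ 2))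

lemma tsum_tent_diff (M : ℕ) (n : ℤ) :
    ∑' j : ℤ, ENNReal.ofReal ((tent M (n + 1 - j) - tent M (n - j)) ^ 2) = tB M := by
  rw [tB, ← (Equiv.subLeft n).tsum_eq
    (fun i => ENNReal.ofReal ((tent M (i + 1) - tent M i) ^ 2))]
  congr 1; ext j
  simp only [Equiv.subLeft_apply]
  congr 4
  ring

lemma tsum_tent_diff' (M : ℕ) (n : ℤ) :
    ∑' j : ℤ, ENNReal.ofReal ((tent M (n - 1 - j) - tent M (n - j)) ^ 2) = tB M := by
  have := tsum_tent_diff M (n - 1)
  rw [← this]
  congr 1; ext j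
  congr 1
  have : n - 1 + 1 - j = n - j := by ring
  rw [this]; ring

lemma dop_shift (v : ℤ → ℝ) (E : ℝ) (φ : ℤ → ℝ) (t : ℤ) :
    dop (fun n => v (n + t)) E (fun n => φ (n + t)) = fun n => dop v E φ (n + t) := by
  ext n
  unfold dop
  have h1 : n + 1 + t = n + t + 1 := by ring
  have h2 : n - 1 + t = n + t - 1 := by ring
  simp only [h1, h2]

lemma Gap.enn {g : ℤ → ℝ} {B : ℝ} (hg : ∀ n, |g n| ≤ B) {E κ : ℝ} (hκ : 0 < κ) (h : Gap g E κ)
    {φ : ℤ → ℝ} (hφ : Sq φ) : ENNReal.ofReal κ * eN φ ≤ eN (dop g E φ) := by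
  rw [eN_eq hφ, eN_eq (hφ.dop hg E), ← ENNReal.ofReal_mul hκ.le]
  exact ENNReal.ofReal_le_ofReal (h φ hφ)

/-- Localization estimate. -/
lemma star {g v : ℤ → ℝ} {B : ℝ} (hg : ∀ n, |g n| ≤ B) (hv : ∀ n, |v n| ≤ B) {E κ : ℝ}
    (hκ : 0 < κ) (h : Gap g E κ) {M : ℕ} (hM : 1 ≤ M) {K : ℤ}
    (hw : ∀ j : ℤ, (∃ t : ℤ, ∀ n : ℤ, |n - j| ≤ M → v n = g (n + t)) ∨ |j| + M ≤ K)
    {φ : ℤ → ℝ} (hφ : Sq φ) :
    κ * n2 φ ≤ 2 * n2 (dop v E φ) + 64 / (M : ℝ) ^ 2 * n2 φ + κ * mass K φ := by
  have hM' : (0 : ℝ) < M := by exact_mod_cast hM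
  -- cut-off functions
  set c : ℤ → ℤ → ℝ := fun j n => tent M (n - j) * φ n with hc
  have hcSq : ∀ j, Sq (c j) := by
    intro j
    refine hφ.bdd_mul (w := fun n => tent M (n - j)) (B := 1) ?_
    intro n
    rw [abs_of_nonneg (tent_nonneg _ _)]
    unfold tent
    apply max_le (by norm_num)
    have : 0 ≤ |((n - j : ℤ) : ℝ)| / M := by positivity
    linarith
  -- pieces
  set T1 : ℤ → ℤ → ℝ≥0∞ := fun j n =>
    ENNReal.ofReal (tent M (n - j) ^ 2) * ENNReal.ofReal (dop v E φ n ^ 2) with hT1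
  set T2 : ℤ → ℤ → ℝ≥0∞ := fun j n =>
    ENNReal.ofReal ((tent M (n + 1 - j) - tent M (n - j)) ^ 2) *
      ENNReal.ofReal (φ (n + 1) ^ 2) with hT2
  set T3 : ℤ → ℤ → ℝ≥0∞ := fun j n =>
    ENNReal.ofReal ((tent M (n - 1 - j) - tent M (n - j)) ^ 2) *
      ENNReal.ofReal (φ (n - 1) ^ 2) with hT3
  set T4 : ℤ → ℤ → ℝ≥0∞ := fun j n =>
    ENNReal.ofReal (tent M (n - j) ^ 2) *
      (if n ∈ Finset.Icc (-K) K then ENNReal.ofReal (φ n ^ 2) else 0) with hT4
  have key : ∀ j, ENNReal.ofReal κ * eN (c j) ≤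
      (2 * ∑' n, T1 j n + 4 * ∑' n, T2 j n + 4 * ∑' n, T3 j n) +
        ENNReal.ofReal κ * ∑' n, T4 j n := by
    intro j
    rcases hw j with ⟨t, ht⟩ | hb
    · -- good window
      have e1 : dop v E (c j) = dop (fun n => g (n + t)) E (c j) := by
        ext n
        unfold dop
        by_cases hn : |n - j| ≤ M
        · rw [ht n hn]
        · have : c j n = 0 := by
            simp only [hc]
            rw [tent_eq_zero hM (by omega)]; ring
          rw [this]; ring
      have e2 : eN (dop v E (c j)) = eN (dop g E (fun n => c j (n - t))) := by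
        rw [e1]
        have := dop_shift g E (fun n => c j (n - t)) t
        simp only [add_sub_cancel_right] at this
        rw [this, eN_shift]
      have hS : Sq (fun n => c j (n - t)) := by
        have := (hcSq j).shift (-t)
        exact this
      have e3 : eN (fun n => c j (n - t)) = eN (c j) := eN_shift (c j) (-t)
      have e4 := h.enn hg hκ hS
      rw [e3, ← e2] at e4
      refine e4.trans (le_trans ?_ le_self_add)
      unfold eN
      rw [← ENNReal.tsum_mul_left, ← ENNReal.tsum_mul_left, ← ENNReal.tsum_mul_left,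
        ← ENNReal.tsum_add, ← ENNReal.tsum_add]
      apply ENNReal.tsum_le_tsum
      intro n
      simp only [hT1, hT2, hT3]
      rw [← ENNReal.ofReal_mul (sq_nonneg _), ← ENNReal.ofReal_mul (sq_nonneg _),
        ← ENNReal.ofReal_mul (sq_nonneg _)]
      have e5 : (2 : ℝ≥0∞) = ENNReal.ofReal 2 := by norm_num
      have e6 : (4 : ℝ≥0∞) = ENNReal.ofReal 4 := by norm_num
      rw [e5, e6, ← ENNReal.ofReal_mul (by norm_num), ← ENNReal.ofReal_mul (by norm_num),
        ← ENNReal.ofReal_mul (by norm_num), ← ENNReal.ofReal_add (by positivity) (by positivity),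
        ← ENNReal.ofReal_add (by positivity) (by positivity)]
      apply ENNReal.ofReal_le_ofReal
      have e7 : dop v E (c j) n = tent M (n - j) * dop v E φ n +
          ((tent M (n + 1 - j) - tent M (n - j)) * φ (n + 1) +
          (tent M (n - 1 - j) - tent M (n - j)) * φ (n - 1)) := by
        simp only [hc, dop]
        ring
      rw [e7]
      set a := tent M (n - j) * dop v E φ n
      set b := (tent M (n + 1 - j) - tent M (n - j)) * φ (n + 1) with hb
      set d := (tent M (n - 1 - j) - tent M (n - j)) * φ (n - 1) with hd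
      have e8 : 2 * (tent M (n - j) ^ 2 * dop v E φ n ^ 2) = 2 * a ^ 2 := by
        simp only [a]; ring
      have e9 : 4 * ((tent M (n + 1 - j) - tent M (n - j)) ^ 2 * φ (n + 1) ^ 2) = 4 * b ^ 2 := by
        simp only [b]; ring
      have e10 : 4 * ((tent M (n - 1 - j) - tent M (n - j)) ^ 2 * φ (n - 1) ^ 2) = 4 * d ^ 2 := by
        simp only [d]; ring
      rw [e8, e9, e10]
      nlinarith [sq_nonneg (a - (b + d)), sq_nonneg (b - d)]
    · -- bad window
      refine le_trans ?_ le_add_self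
      refine mul_le_mul_right ?_ _
      unfold eN
      apply ENNReal.tsum_le_tsum
      intro n
      simp only [hT4, hc]
      by_cases hn : n ∈ Finset.Icc (-K) K
      · rw [if_pos hn, ← ENNReal.ofReal_mul (sq_nonneg _), mul_pow]
      · have : tent M (n - j) = 0 := by
          apply tent_eq_zero hM
          rw [Finset.mem_Icc, not_and_or] at hn
          have hj1 := le_abs_self j
          have hj2 := neg_le_abs j
          rcases hn with hn | hn
          · rw [le_abs]; right; omega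
          · rw [le_abs]; left; omega
        rw [this]; simp
  have sum := ENNReal.tsum_le_tsum key
  rw [ENNReal.tsum_mul_left, ENNReal.tsum_add, ENNReal.tsum_add, ENNReal.tsum_add,
    ENNReal.tsum_mul_left, ENNReal.tsum_mul_left, ENNReal.tsum_mul_left,
    ENNReal.tsum_mul_left] at sum
  have s0 : ∑' j, eN (c j) = tA M * eN φ := by
    unfold eN
    rw [ENNReal.tsum_comm, ← ENNReal.tsum_mul_left]
    congr 1; ext n
    have : ∀ j, ENNReal.ofReal (c j n ^ 2) =
        ENNReal.ofReal (tent M (n - j) ^ 2) * ENNReal.ofReal (φ n ^ 2) := by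
      intro j
      simp only [hc]
      rw [mul_pow, ENNReal.ofReal_mul (sq_nonneg _)]
    simp_rw [this]
    rw [ENNReal.tsum_mul_right, tsum_tent]
  have s1 : ∑' j, ∑' n, T1 j n = tA M * eN (dop v E φ) := by
    rw [ENNReal.tsum_comm]
    unfold eN
    rw [← ENNReal.tsum_mul_left]
    congr 1; ext n
    simp only [hT1]
    rw [ENNReal.tsum_mul_right, tsum_tent]
  have s2 : ∑' j, ∑' n, T2 j n = tB M * eN φ := by
    rw [ENNReal.tsum_comm, ← eN_shift φ 1]
    unfold eN
    rw [← ENNReal.tsum_mul_left]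
    congr 1; ext n
    simp only [hT2]
    rw [ENNReal.tsum_mul_right, tsum_tent_diff]
  have s3 : ∑' j, ∑' n, T3 j n = tB M * eN φ := by
    rw [ENNReal.tsum_comm, ← eN_shift φ (-1)]
    unfold eN
    rw [← ENNReal.tsum_mul_left]
    congr 1; ext n
    simp only [hT3]
    rw [ENNReal.tsum_mul_right, tsum_tent_diff']
    rfl
  have s4 : ∑' j, ∑' n, T4 j n = tA M * ENNReal.ofReal (mass K φ) := by
    rw [ENNReal.tsum_comm]
    have : ∀ n, ∑' j, T4 j n =
        tA M * (if n ∈ Finset.Icc (-K) K then ENNReal.ofReal (φ n ^ 2) else 0) := by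
      intro n
      simp only [hT4]
      rw [ENNReal.tsum_mul_right, tsum_tent]
    simp_rw [this]
    rw [ENNReal.tsum_mul_left]
    congr 1
    rw [tsum_eq_sum (s := Finset.Icc (-K) K) (by
      intro b hb
      rw [if_neg hb]), mass, ENNReal.ofReal_sum_of_nonneg (fun _ _ => sq_nonneg _)]
    apply Finset.sum_congr rfl
    intro n hn
    rw [if_pos hn]
  rw [s0, s1, s2, s3, s4] at sum
  -- convert to reals
  set A : ℝ := (tA M).toReal with hA
  have hAe : tA M = ENNReal.ofReal A := (ENNReal.ofReal_toReal (tA_ne_top hM)).symm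
  have hA4 : (M : ℝ) / 4 ≤ A := by
    have := le_tA hM
    rw [hAe] at this
    have hA0 : 0 ≤ A := ENNReal.toReal_nonneg
    exact (ENNReal.ofReal_le_ofReal_iff hA0).mp this
  have hApos : 0 < A := by
    have : 0 < (M : ℝ) / 4 := by positivity
    linarith
  have hn0 := n2_nonneg φ
  have hn1 := n2_nonneg (dop v E φ)
  have hm0 := mass_nonneg K φ
  have sum2 : ENNReal.ofReal (κ * (A * n2 φ)) ≤
      ENNReal.ofReal (2 * (A * n2 (dop v E φ)) + 4 * (2 / M * n2 φ) + 4 * (2 / M * n2 φ) +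
        κ * (A * mass K φ)) := by
    have e5 : (2 : ℝ≥0∞) = ENNReal.ofReal 2 := by norm_num
    have e6 : (4 : ℝ≥0∞) = ENNReal.ofReal 4 := by norm_num
    calc ENNReal.ofReal (κ * (A * n2 φ)) = ENNReal.ofReal κ * (tA M * eN φ) := by
          rw [hAe, eN_eq hφ, ← ENNReal.ofReal_mul hApos.le, ← ENNReal.ofReal_mul hκ.le]
      _ ≤ _ := sum
      _ ≤ 2 * (tA M * eN (dop v E φ)) + 4 * (ENNReal.ofReal (2 / M) * eN φ) +
          4 * (ENNReal.ofReal (2 / M) * eN φ) +
          ENNReal.ofReal κ * (tA M * ENNReal.ofReal (mass K φ)) := by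
          have := tB_le hM
          gcongr
      _ = _ := by
          rw [hAe, eN_eq hφ, eN_eq (hφ.dop hv E), e5, e6,
            ← ENNReal.ofReal_mul hApos.le, ← ENNReal.ofReal_mul (by positivity),
            ← ENNReal.ofReal_mul hApos.le, ← ENNReal.ofReal_mul (by positivity),
            ← ENNReal.ofReal_mul (by positivity), ← ENNReal.ofReal_mul (by positivity),
            ← ENNReal.ofReal_add (by positivity) (by positivity),
            ← ENNReal.ofReal_add (by positivity) (by positivity),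
            ← ENNReal.ofReal_add (by positivity) (by positivity)]
  have sum3 := (ENNReal.ofReal_le_ofReal_iff (by positivity)).mp sum2
  have e11 : 4 * (2 / (M : ℝ) * n2 φ) + 4 * (2 / M * n2 φ) ≤ A * (64 / (M : ℝ) ^ 2 * n2 φ) := by
    have : 4 * (2 / (M : ℝ) * n2 φ) + 4 * (2 / M * n2 φ) =
        (M : ℝ) / 4 * (64 / (M : ℝ) ^ 2 * n2 φ) := by
      field_simp; ring
    rw [this]
    exact mul_le_mul_of_nonneg_right hA4 (by positivity)
  have e12 : A * (κ * n2 φ) ≤
      A * (2 * n2 (dop v E φ) + 64 / (M : ℝ) ^ 2 * n2 φ + κ * mass K φ) := by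
    nlinarith
  exact le_of_mul_le_mul_left e12 hApos

end Pool.Agent.Lib.MP_940d9d_mp
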