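import Mathlib

/-!
The discrete Schroedinger operator on `ℓ²(ℤ)` with a bounded real potential.
-/

open scoped ENNReal BigOperators

namespace Pool.Agent.Lib.MP_940d9d_mp

/-- The Hilbert space `ℓ²(ℤ)` over `𝕜`. -/
abbrev L2Z (𝕜 : Type) [RCLike 𝕜] := lp (fun _ : ℤ => 𝕜) 2

section
variable {𝕜 : Type} [RCLike 𝕜]

lemma memlp_iff {f : ℤ → 𝕜} : Memℓp f 2 ↔ Summable (fun n => ‖f n‖ ^ 2) := by
  rw [memℓp_gen_iff (by norm_num)]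
  simp

lemma memlp_shift {f : ℤ → 𝕜} (h : Memℓp f 2) (t : ℤ) : Memℓp (fun n => f (n + t)) 2 := by
  have h1 : Summable (fun n => ‖f n‖ ^ 2) := memlp_iff.mp h
  have h2 : Summable ((fun n => ‖f n‖ ^ 2) ∘ (Equiv.addRight t)) :=
    (Equiv.addRight t).summable_iff.mpr h1
  exact memlp_iff.mpr h2

lemma memlp_mul {f : ℤ → 𝕜} (h : Memℓp f 2) {v : ℤ → ℝ} {B : ℝ} (hv : ∀ n, |v n| ≤ B) :
    Memℓp (fun n => (v n : 𝕜) * f n) 2 := by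
  rw [memlp_iff] at *
  refine Summable.of_nonneg_of_le (fun _ => by positivity) (fun n => ?_) (h.mul_left (B ^ 2))
  rw [norm_mul, RCLike.norm_ofReal, mul_pow]
  have h1 : |v n| ^ 2 ≤ B ^ 2 := pow_le_pow_left₀ (abs_nonneg _) (hv n) 2
  exact mul_le_mul_of_nonneg_right h1 (by positivity)

/-- The function `ψ(m+1) + ψ(m-1) + v(m) ψ(m)`. -/
def schrFun (v : ℤ → ℝ) (f : ℤ → 𝕜) : ℤ → 𝕜 := fun m => f (m + 1) + f (m - 1) + (v m : 𝕜) * f m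

lemma memlp_schrFun {f : ℤ → 𝕜} (h : Memℓp f 2) {v : ℤ → ℝ} {B : ℝ} (hv : ∀ n, |v n| ≤ B) :
    Memℓp (schrFun v f) 2 := by
  have h1 := memlp_shift h 1
  have h2 := memlp_shift h (-1)
  have h3 := (h1.add h2).add (memlp_mul h hv)
  exact h3

/-- The Schroedinger operator as a linear map. -/
def schrLin (v : ℤ → ℝ) (hv : ∃ B, ∀ n, |v n| ≤ B) : L2Z 𝕜 →ₗ[𝕜] L2Z 𝕜 where
  toFun ψ := ⟨schrFun v ψ, by obtain ⟨B, hB⟩ := hv; exact memlp_schrFun (lp.memℓp ψ) hB⟩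
  map_add' ψ χ := by
    ext m
    simp only [schrFun, lp.coeFn_add, Pi.add_apply]
    ring
  map_smul' c ψ := by
    ext m
    simp only [schrFun, lp.coeFn_smul, Pi.smul_apply, smul_eq_mul, RingHom.id_apply]
    ring

lemma summable_inner_shift (ψ χ : L2Z 𝕜) (t : ℤ) :
    Summable (fun n => inner 𝕜 ((ψ : ℤ → 𝕜) (n + t)) ((χ : ℤ → 𝕜) n)) :=
  lp.summable_inner (⟨fun n => ψ (n + t), memlp_shift (lp.memℓp ψ) t⟩ : L2Z 𝕜) χ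

lemma summable_inner_shift' (ψ χ : L2Z 𝕜) (t : ℤ) :
    Summable (fun n => inner 𝕜 ((ψ : ℤ → 𝕜) n) ((χ : ℤ → 𝕜) (n + t))) :=
  lp.summable_inner ψ (⟨fun n => χ (n + t), memlp_shift (lp.memℓp χ) t⟩ : L2Z 𝕜)

lemma schrLin_symm (v : ℤ → ℝ) (hv : ∃ B, ∀ n, |v n| ≤ B) :
    (schrLin (𝕜 := 𝕜) v hv).IsSymmetric := by
  intro ψ χ
  obtain ⟨B, hB⟩ := id hv
  rw [lp.inner_eq_tsum, lp.inner_eq_tsum]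
  have hm1 : Summable (fun n => inner 𝕜 ((v n : 𝕜) * (ψ : ℤ → 𝕜) n) ((χ : ℤ → 𝕜) n)) :=
    lp.summable_inner (⟨fun n => (v n : 𝕜) * ψ n, memlp_mul (lp.memℓp ψ) hB⟩ : L2Z 𝕜) χ
  have hm2 : Summable (fun n => inner 𝕜 ((ψ : ℤ → 𝕜) n) ((v n : 𝕜) * (χ : ℤ → 𝕜) n)) :=
    lp.summable_inner ψ (⟨fun n => (v n : 𝕜) * χ n, memlp_mul (lp.memℓp χ) hB⟩ : L2Z 𝕜)
  have l1 : ∑' n, inner 𝕜 ((schrLin v hv ψ : ℤ → 𝕜) n) ((χ : ℤ → 𝕜) n) =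
      ∑' n, inner 𝕜 ((ψ : ℤ → 𝕜) (n + 1)) ((χ : ℤ → 𝕜) n) +
      ∑' n, inner 𝕜 ((ψ : ℤ → 𝕜) (n + -1)) ((χ : ℤ → 𝕜) n) +
      ∑' n, inner 𝕜 ((v n : 𝕜) * (ψ : ℤ → 𝕜) n) ((χ : ℤ → 𝕜) n) := by
    rw [← (summable_inner_shift ψ χ 1).tsum_add (summable_inner_shift ψ χ (-1)),
      ← ((summable_inner_shift ψ χ 1).add (summable_inner_shift ψ χ (-1))).tsum_add hm1]
    congr 1; ext n
    rw [← inner_add_left, ← inner_add_left]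
    rfl
  have l2 : ∑' n, inner 𝕜 ((ψ : ℤ → 𝕜) n) ((schrLin v hv χ : ℤ → 𝕜) n) =
      ∑' n, inner 𝕜 ((ψ : ℤ → 𝕜) n) ((χ : ℤ → 𝕜) (n + 1)) +
      ∑' n, inner 𝕜 ((ψ : ℤ → 𝕜) n) ((χ : ℤ → 𝕜) (n + -1)) +
      ∑' n, inner 𝕜 ((ψ : ℤ → 𝕜) n) ((v n : 𝕜) * (χ : ℤ → 𝕜) n) := by
    rw [← (summable_inner_shift' ψ χ 1).tsum_add (summable_inner_shift' ψ χ (-1)),
      ← ((summable_inner_shift' ψ χ 1).add (summable_inner_shift' ψ χ (-1))).tsum_add hm2]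
    congr 1; ext n
    rw [← inner_add_right, ← inner_add_right]
    rfl
  rw [l1, l2]
  have c1 : ∑' n, inner 𝕜 ((ψ : ℤ → 𝕜) (n + 1)) ((χ : ℤ → 𝕜) n) =
      ∑' n, inner 𝕜 ((ψ : ℤ → 𝕜) n) ((χ : ℤ → 𝕜) (n + -1)) := by
    rw [← (Equiv.addRight (1 : ℤ)).tsum_eq
      (fun n => inner 𝕜 ((ψ : ℤ → 𝕜) n) ((χ : ℤ → 𝕜) (n + -1)))]
    congr 1; ext n
    simp
  have c2 : ∑' n, inner 𝕜 ((ψ : ℤ → 𝕜) (n + -1)) ((χ : ℤ → 𝕜) n) =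
      ∑' n, inner 𝕜 ((ψ : ℤ → 𝕜) n) ((χ : ℤ → 𝕜) (n + 1)) := by
    rw [← (Equiv.addRight (-1 : ℤ)).tsum_eq
      (fun n => inner 𝕜 ((ψ : ℤ → 𝕜) n) ((χ : ℤ → 𝕜) (n + 1)))]
    congr 1; ext n
    simp
  have c3 : ∑' n, inner 𝕜 ((v n : 𝕜) * (ψ : ℤ → 𝕜) n) ((χ : ℤ → 𝕜) n) =
      ∑' n, inner 𝕜 ((ψ : ℤ → 𝕜) n) ((v n : 𝕜) * (χ : ℤ → 𝕜) n) := by
    congr 1; ext n
    rw [← smul_eq_mul, ← smul_eq_mul, inner_smul_left, inner_smul_right, RCLike.conj_ofReal]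
  rw [c1, c2, c3]
  ring

/-- The Schroedinger operator `(Hψ)(m) = ψ(m+1) + ψ(m-1) + v(m) ψ(m)` on `ℓ²(ℤ)`. -/
noncomputable def schr (v : ℤ → ℝ) (hv : ∃ B, ∀ n, |v n| ≤ B) : L2Z 𝕜 →L[𝕜] L2Z 𝕜 :=
  ⟨schrLin v hv, (schrLin_symm v hv).continuous⟩

lemma schr_apply (v : ℤ → ℝ) (hv : ∃ B, ∀ n, |v n| ≤ B) (ψ : L2Z 𝕜) (m : ℤ) :
    (schr v hv ψ : ℤ → 𝕜) m = (ψ : ℤ → 𝕜) (m + 1) + (ψ : ℤ → 𝕜) (m - 1) + (v m : 𝕜) * (ψ : ℤ → 𝕜) m :=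
  rfl

lemma schr_symm (v : ℤ → ℝ) (hv : ∃ B, ∀ n, |v n| ≤ B) (ψ χ : L2Z 𝕜) :
    inner 𝕜 (schr v hv ψ) χ = inner 𝕜 ψ (schr v hv χ) := schrLin_symm v hv ψ χ

end

end Pool.Agent.Lib.MP_940d9d_mp
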