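import Pool.Agent.Lib.MP_940d9d_mp.Defs
import Pool.Agent.Lib.MP_940d9d_mp.Operator

/-!
The Schroedinger operator of a binary sequence, and spectral measures.
-/

open scoped ENNReal BoundedContinuousFunction
open MeasureTheory

namespace Pool.Agent.Lib.MP_940d9d_mp

/-- The real potential `m ↦ λ x(m)`. -/
def potential (lam : ℝ) (x : ℤ → Fin 2) : ℤ → ℝ := fun m => lam * ((x m : ℕ) : ℝ)

lemma potential_bdd (lam : ℝ) (x : ℤ → Fin 2) : ∃ B, ∀ n, |potential lam x n| ≤ B := by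
  refine ⟨|lam|, fun n => ?_⟩
  unfold potential
  rw [abs_mul, Nat.abs_cast]
  have : ((x n : ℕ) : ℝ) ≤ 1 := by
    have := (x n).is_le
    exact_mod_cast this
  have h0 := abs_nonneg lam
  have h1 : (0 : ℝ) ≤ ((x n : ℕ) : ℝ) := Nat.cast_nonneg _
  nlinarith

/-- The discrete Schroedinger operator `(Hψ)(m) = ψ(m+1) + ψ(m-1) + λ x(m) ψ(m)` on the complex
Hilbert space `ℓ²(ℤ)`. -/
noncomputable def schroedinger (lam : ℝ) (x : ℤ → Fin 2) : L2Z ℂ →L[ℂ] L2Z ℂ :=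
  schr (potential lam x) (potential_bdd lam x)

lemma schroedinger_apply (lam : ℝ) (x : ℤ → Fin 2) (ψ : L2Z ℂ) (m : ℤ) :
    (schroedinger lam x ψ : ℤ → ℂ) m =
      (ψ : ℤ → ℂ) (m + 1) + (ψ : ℤ → ℂ) (m - 1) + (potential lam x m : ℂ) * (ψ : ℤ → ℂ) m := rfl

/-- `μ` is the spectral measure of the bounded self-adjoint operator `A` and the vector `ψ`:
a finite Borel measure on `ℝ` with `⟨ψ, f(A) ψ⟩ = ∫ f dμ` for all bounded continuous `f`
(`f(A)` being given by the continuous functional calculus). -/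
def IsSpectralMeasure {H : Type*} [NormedAddCommGroup H] [InnerProductSpace ℂ H] [CompleteSpace H]
    (A : H →L[ℂ] H) (ψ : H) (μ : Measure ℝ) : Prop :=
  IsFiniteMeasure μ ∧
    ∀ f : ℝ →ᵇ ℝ, inner ℂ ψ (cfc (fun t : ℝ => f t) A ψ) = ((∫ t, f t ∂μ : ℝ) : ℂ)

end Pool.Agent.Lib.MP_940d9d_mp
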