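import Pool.Agent.Lib.MP_940d9d_mp.Weyl

/-!
Existence of eigenfunctions for potentials which look like `g` away from the origin and
like `x` near the origin.
-/

open scoped ENNReal BigOperators
open Filter Topology

namespace Pool.Agent.Lib.MP_940d9d_mp

/-- Outside `[-K, K]` all windows of radius `M` of `v` are windows of `g`. -/
def Win (g v : ℤ → ℝ) (M : ℕ) (K : ℤ) : Prop :=
  ∀ j : ℤ, (∃ t : ℤ, ∀ n : ℤ, |n - j| ≤ M → v n = g (n + t)) ∨ |j| + M ≤ K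

lemma le_n2_at {φ : ℤ → ℝ} (h : Sq φ) {c : ℝ} (hc : n2 φ ≤ c ^ 2) (hc0 : 0 ≤ c) (n : ℤ) :
    |φ n| ≤ c := by
  have := (le_n2 h n).trans hc
  exact abs_le_of_sq_le_sq this hc0

lemma n2_pos {φ : ℤ → ℝ} (h : Sq φ) (h0 : ∃ n, φ n ≠ 0) : 0 < n2 φ := by
  obtain ⟨n, hn⟩ := h0
  have := le_n2 h n
  have h2 : 0 < φ n ^ 2 := by positivity
  linarith

lemma dop_const_mul (v : ℤ → ℝ) (E a : ℝ) (φ : ℤ → ℝ) :
    dop v E (fun n => a * φ n) = fun n => a * dop v E φ n := by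
  ext n; unfold dop; ring

/-- normalization -/
lemma normalize {φ : ℤ → ℝ} (h : Sq φ) (h0 : 0 < n2 φ) (v : ℤ → ℝ) (E : ℝ) :
    Sq (fun n => (Real.sqrt (n2 φ))⁻¹ * φ n) ∧ n2 (fun n => (Real.sqrt (n2 φ))⁻¹ * φ n) = 1 ∧
      n2 (dop v E (fun n => (Real.sqrt (n2 φ))⁻¹ * φ n)) = (n2 φ)⁻¹ * n2 (dop v E φ) := by
  refine ⟨h.const_mul _, ?_, ?_⟩
  · rw [n2_const_mul, inv_pow, Real.sq_sqrt h0.le]
    field_simp
  · rw [dop_const_mul, n2_const_mul, inv_pow, Real.sq_sqrt h0.le]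

lemma mass_le_n2 {φ : ℤ → ℝ} (h : Sq φ) (K : ℤ) : mass K φ ≤ n2 φ :=
  h.sum_le_tsum _ (fun _ _ => sq_nonneg _)

/-- tightness of eigenfunctions -/
lemma tight {g v : ℤ → ℝ} {B : ℝ} (hg : ∀ n, |g n| ≤ B) (hv : ∀ n, |v n| ≤ B) {E κ : ℝ}
    (hκ : 0 < κ) (h : Gap g E κ) {M : ℕ} (hM : 1 ≤ M) {K : ℤ} (hw : Win g v M K)
    {φ : ℤ → ℝ} (hφ : Sq φ) (h1 : n2 φ = 1) (h0 : ∀ n, dop v E φ n = 0) {η : ℝ}
    (hη : 64 / (M : ℝ) ^ 2 ≤ κ * η) : 1 - η ≤ mass K φ := by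
  have := star hg hv hκ h hM hw hφ
  have e : n2 (dop v E φ) = 0 := by
    unfold n2; simp [h0]
  rw [e, h1] at this
  have h2 : κ * (1 - η) ≤ κ * mass K φ := by nlinarith
  exact le_of_mul_le_mul_left h2 hκ

lemma eigen_of_weyl {g v : ℤ → ℝ} {B : ℝ} (hg : ∀ n, |g n| ≤ B) (hv : ∀ n, |v n| ≤ B) {E κ : ℝ}
    (hκ : 0 < κ) (h : Gap g E κ) {M : ℕ} (hM : 1 ≤ M) (hM2 : 64 / (M : ℝ) ^ 2 ≤ κ / 4) {K : ℤ}
    (hw : Win g v M K)
    (hweyl : ∀ κ' > 0, ∃ φ : ℤ → ℝ, Sq φ ∧ n2 φ = 1 ∧ n2 (dop v E φ) < κ') :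
    ∃ ψ : ℤ → ℝ, Sq ψ ∧ n2 ψ ≤ 1 ∧ (∀ n, dop v E ψ n = 0) ∧ ∃ n, ψ n ≠ 0 := by
  have hpos : ∀ j : ℕ, (0 : ℝ) < 1 / ((j : ℝ) + 1) := fun j => Nat.one_div_pos_of_nat
  choose φ hφ1 hφ2 hφ3 using fun j : ℕ => hweyl (1 / ((j : ℝ) + 1)) (hpos j)
  have hlim : Tendsto (fun j => n2 (dop v E (φ j))) atTop (𝓝 0) := by
    refine squeeze_zero (fun j => n2_nonneg _) (fun j => (hφ3 j).le) ?_
    exact tendsto_one_div_add_atTop_nhds_zero_nat
  have hop : ∀ n, Tendsto (fun j => dop v E (φ j) n) atTop (𝓝 0) := by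
    intro n
    have h1 : Tendsto (fun j => dop v E (φ j) n ^ 2) atTop (𝓝 0) :=
      squeeze_zero (fun j => sq_nonneg _) (fun j => le_n2 ((hφ1 j).dop hv E) n) hlim
    have h2 := h1.sqrt
    rw [Real.sqrt_zero] at h2
    rw [tendsto_zero_iff_abs_tendsto_zero]
    refine h2.congr (fun j => ?_)
    rw [Real.sqrt_sq_eq_abs]; rfl
  obtain ⟨ψ, s, hs1, hs2, hψ1, hψ2, hψ3⟩ := compactness (v := fun _ => v) (w := v)
    (fun n => tendsto_const_nhds) (e := fun _ => E) tendsto_const_nhds hφ1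
    (fun j => (hφ2 j).le) hop
  refine ⟨ψ, hψ1, hψ2, hψ3, ?_⟩
  by_contra hcon
  push Not at hcon
  have hm0 : Tendsto (fun j => mass K (φ (s j))) atTop (𝓝 0) := by
    have : mass K ψ = 0 := by unfold mass; simp [hcon]
    rw [← this]
    exact tendsto_finsetSum _ (fun n _ => (hs2 n).pow 2)
  have hst : ∀ j, κ * (3 / 4) ≤ 2 * n2 (dop v E (φ (s j))) + κ * mass K (φ (s j)) := by
    intro j
    have := star hg hv hκ h hM hw (hφ1 (s j))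
    rw [hφ2 (s j)] at this
    linarith
  have hl2 : Tendsto (fun j => 2 * n2 (dop v E (φ (s j))) + κ * mass K (φ (s j))) atTop
      (𝓝 (2 * 0 + κ * 0)) :=
    ((hlim.comp hs1.tendsto_atTop).const_mul 2).add (hm0.const_mul κ)
  have := ge_of_tendsto hl2 (Eventually.of_forall hst)
  linarith

lemma gap_of_no_eigen {g v : ℤ → ℝ} {B : ℝ} (hg : ∀ n, |g n| ≤ B) (hv : ∀ n, |v n| ≤ B) {E κ : ℝ}
    (hκ : 0 < κ) (h : Gap g E κ) {M : ℕ} (hM : 1 ≤ M) (hM2 : 64 / (M : ℝ) ^ 2 ≤ κ / 4) {K : ℤ}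
    (hw : Win g v M K)
    (hno : ∀ ψ : ℤ → ℝ, Sq ψ → (∀ n, dop v E ψ n = 0) → ∀ n, ψ n = 0) :
    ∃ κ' > 0, Gap v E κ' := by
  by_contra hcon
  push Not at hcon
  have hweyl : ∀ κ' > 0, ∃ φ : ℤ → ℝ, Sq φ ∧ n2 φ = 1 ∧ n2 (dop v E φ) < κ' := by
    intro κ' hκ'
    have h1 := hcon κ' hκ'
    unfold Gap at h1
    push Not at h1
    obtain ⟨φ, hφ, hφ2⟩ := h1
    have hpos : 0 < n2 φ := by
      rcases (n2_nonneg φ).eq_or_lt with h0 | h0
      · rw [← h0, mul_zero] at hφ2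
        linarith [n2_nonneg (dop v E φ)]
      · exact h0
    obtain ⟨a, b, c⟩ := normalize hφ hpos v E
    refine ⟨_, a, b, ?_⟩
    rw [c, inv_mul_lt_iff₀ hpos]
    linarith
  obtain ⟨ψ, h1, _, h3, n, hn⟩ := eigen_of_weyl hg hv hκ h hM hM2 hw hweyl
  exact hn (hno ψ h1 h3 n)

lemma exist_eigen {g v : ℤ → ℝ} {B : ℝ} (hg : ∀ n, |g n| ≤ B) (hv : ∀ n, |v n| ≤ B) {E κ : ℝ}
    (hκ : 0 < κ) (h : Gap g E κ) {M : ℕ} (hM : 1 ≤ M) (hM2 : 64 / (M : ℝ) ^ 2 ≤ κ / 16) {K : ℤ}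
    (hw : Win g v M K) {u : ℤ → ℝ} (hu : Sq u) (hu0 : ∃ n, u n ≠ 0) {δ : ℝ} (hδ : 0 ≤ δ)
    (hδ2 : δ ^ 2 ≤ κ / 4) (hu1 : n2 (dop v E u) ≤ δ ^ 2 * n2 u) :
    ∃ (E' : ℝ) (ψ : ℤ → ℝ), |E' - E| ≤ δ ∧ Sq ψ ∧ n2 ψ = 1 ∧ (∀ n, dop v E' ψ n = 0) ∧
      Gap g E' (κ / 4) := by
  obtain ⟨E', hE', hweyl⟩ := exists_weyl hv hδ hu hu0 hu1
  have hE2 : (E' - E) ^ 2 ≤ κ / 4 := by
    refine le_trans ?_ hδ2
    rw [← sq_abs]
    exact pow_le_pow_left₀ (abs_nonneg _) hE' 2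
  have hg' := h.energy hg hE2
  obtain ⟨ψ, h1, h2, h3, h4⟩ := eigen_of_weyl hg hv (by positivity) hg' hM (by linarith) hw hweyl
  obtain ⟨a, b, _⟩ := normalize h1 (n2_pos h1 h4) v E'
  refine ⟨E', _, hE', a, b, ?_, hg'⟩
  intro n
  rw [dop_const_mul]
  simp [h3 n]

/-- Main step: eigenfunctions persist. -/
lemma persist {x g : ℤ → ℝ} {B : ℝ} (hg : ∀ n, |g n| ≤ B) (hx : ∀ n, |x n| ≤ B)
    {v : ℕ → ℤ → ℝ} (hv : ∀ N n, |v N n| ≤ B)
    (hvx : ∀ n, Tendsto (fun N => v N n) atTop (𝓝 (x n)))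
    (hwin : ∀ M : ℕ, ∃ K : ℤ, ∀ᶠ N in atTop, Win g (v N) M K) {E κ : ℝ} (hκ : 0 < κ)
    (h : Gap g E κ) {u : ℤ → ℝ} (hu : Sq u) (hu1 : n2 u = 1) (hu2 : ∀ n, dop x E u n = 0)
    {ε : ℝ} (hε : 0 < ε) (F : Finset ℤ) :
    ∀ᶠ N in atTop, ∃ (E' : ℝ) (ψ : ℤ → ℝ), |E' - E| ≤ ε ∧ Sq ψ ∧ n2 ψ = 1 ∧
      (∀ n, dop (v N) E' ψ n = 0) ∧ Gap g E' (κ / 4) ∧ ∀ n ∈ F, |ψ n ^ 2 - u n ^ 2| ≤ ε := by
  -- the residual tends to zero
  set r : ℕ → ℝ := fun N => n2 (dop (v N) E u) with hr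
  have hr0 : Tendsto r atTop (𝓝 0) := by
    have e : ∀ N, r N = ∑' n, ((v N n - x n) * u n) ^ 2 := by
      intro N
      simp only [hr, n2]
      congr 1; ext n
      have := hu2 n
      unfold dop at *
      have e2 : u (n + 1) + u (n - 1) + v N n * u n - E * u n = (v N n - x n) * u n := by
        linear_combination this
      rw [e2]
    have hd : Tendsto (fun N => ∑' n, ((v N n - x n) * u n) ^ 2) atTop (𝓝 (∑' n : ℤ, (0 : ℝ))) := by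
      apply tendsto_tsum_of_dominated_convergence (bound := fun n => (2 * B) ^ 2 * u n ^ 2)
      · exact hu.mul_left _
      · intro n
        have h1 : Tendsto (fun N => v N n - x n) atTop (𝓝 0) := by
          have := (hvx n).sub_const (x n)
          rwa [sub_self] at this
        have h2 := (h1.mul_const (u n)).pow 2
        simpa using h2
      · refine Eventually.of_forall (fun N n => ?_)
        rw [Real.norm_eq_abs, abs_of_nonneg (sq_nonneg _), mul_pow]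
        apply mul_le_mul_of_nonneg_right _ (sq_nonneg _)
        have h1 : |v N n - x n| ≤ 2 * B := by
          have := abs_sub (v N n) (x n)
          linarith [hv N n, hx n]
        rw [← sq_abs]
        exact pow_le_pow_left₀ (abs_nonneg _) h1 2
    rw [tsum_zero] at hd
    exact hd.congr (fun N => (e N).symm)
  have hu0 : ∃ n, u n ≠ 0 := by
    by_contra hcon
    push Not at hcon
    have : n2 u = 0 := by unfold n2; simp [hcon]
    linarith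
  -- choose window size for existence
  obtain ⟨M, hM, hM2⟩ : ∃ M : ℕ, 1 ≤ M ∧ 64 / (M : ℝ) ^ 2 ≤ κ / 16 := by
    obtain ⟨M, hM⟩ := exists_nat_gt (64 / (κ / 16) + 1)
    have hc : 0 < 64 / (κ / 16) := by positivity
    have h1 : (1 : ℝ) ≤ M := by linarith
    refine ⟨M, by exact_mod_cast h1, ?_⟩
    rw [div_le_iff₀ (by positivity)]
    have h2 : 64 / (κ / 16) ≤ (M : ℝ) ^ 2 := by nlinarith
    rw [div_le_iff₀ (by positivity)] at h2
    linarith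
  obtain ⟨K, hK⟩ := hwin M
  -- existence with explicit control
  have hex : ∀ δ > 0, δ ^ 2 ≤ κ / 4 → ∀ᶠ N in atTop, ∃ (E' : ℝ) (ψ : ℤ → ℝ), |E' - E| ≤ δ ∧ Sq ψ ∧
      n2 ψ = 1 ∧ (∀ n, dop (v N) E' ψ n = 0) ∧ Gap g E' (κ / 4) := by
    intro δ hδ hδ2
    have h1 : ∀ᶠ N in atTop, r N ≤ δ ^ 2 :=
      hr0.eventually_le_const (show (0 : ℝ) < δ ^ 2 by positivity)
    filter_upwards [hK, h1] with N hN1 hN2
    exact exist_eigen hg (hv N) hκ h hM hM2 hN1 hu hu0 hδ.le hδ2 (by rw [hu1, mul_one]; exact hN2)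
  by_contra hcon
  rw [not_eventually] at hcon
  obtain ⟨s0, hs0, hbad⟩ := extraction_of_frequently_atTop hcon
  -- along s0 pick eigenpairs with energies tending to E
  have hseq : ∀ j : ℕ, ∀ᶠ k in atTop, ∃ (E' : ℝ) (ψ : ℤ → ℝ), |E' - E| ≤ 1 / ((j : ℝ) + 1) ∧ Sq ψ ∧
      n2 ψ = 1 ∧ (∀ n, dop (v (s0 k)) E' ψ n = 0) ∧ Gap g E' (κ / 4) := by
    intro j
    have hp : (0 : ℝ) < 1 / ((j : ℝ) + 1) := Nat.one_div_pos_of_nat
    set δ := min (1 / ((j : ℝ) + 1)) (Real.sqrt (κ / 4)) with hδ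
    have hδ0 : 0 < δ := lt_min hp (Real.sqrt_pos.mpr (by positivity))
    have hδ2 : δ ^ 2 ≤ κ / 4 := by
      have h1 : δ ≤ Real.sqrt (κ / 4) := min_le_right _ _
      calc δ ^ 2 ≤ Real.sqrt (κ / 4) ^ 2 := pow_le_pow_left₀ hδ0.le h1 2
        _ = κ / 4 := Real.sq_sqrt (by positivity)
    have := hs0.tendsto_atTop.eventually (hex δ hδ0 hδ2)
    filter_upwards [this] with k hk
    obtain ⟨E', ψ, a1, a2⟩ := hk
    exact ⟨E', ψ, a1.trans (min_le_left _ _), a2⟩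
  obtain ⟨s1, hs1, hgood⟩ := extraction_forall_of_eventually hseq
  choose e φ h1 h2 h3 h4 h5 using hgood
  have he : Tendsto e atTop (𝓝 E) := by
    rw [tendsto_iff_norm_sub_tendsto_zero]
    refine squeeze_zero (fun j => norm_nonneg _) (fun j => ?_)
      tendsto_one_div_add_atTop_nhds_zero_nat
    rw [Real.norm_eq_abs]; exact h1 j
  have hs01 : Tendsto (fun j => s0 (s1 j)) atTop atTop :=
    hs0.tendsto_atTop.comp hs1.tendsto_atTop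
  obtain ⟨ψ, s, hs, hpt, hψ1, hψ2, hψ3⟩ := compactness (v := fun j => v (s0 (s1 j))) (w := x)
    (fun n => (hvx n).comp hs01) he h2 (fun j => (h3 j).le)
    (fun n => by simp only [h4]; exact tendsto_const_nhds)
  -- tightness
  have htight : ∀ η > 0, 1 - η ≤ n2 ψ := by
    intro η hη
    obtain ⟨M', hM', hM2'⟩ : ∃ M : ℕ, 1 ≤ M ∧ 64 / (M : ℝ) ^ 2 ≤ κ / 4 * η := by
      obtain ⟨M, hM⟩ := exists_nat_gt (64 / (κ / 4 * η) + 1)
      have hc : 0 < 64 / (κ / 4 * η) := by positivity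
      have h1 : (1 : ℝ) ≤ M := by linarith
      refine ⟨M, by exact_mod_cast h1, ?_⟩
      rw [div_le_iff₀ (by positivity)]
      have h2 : 64 / (κ / 4 * η) ≤ (M : ℝ) ^ 2 := by nlinarith
      rw [div_le_iff₀ (by positivity)] at h2
      linarith
    obtain ⟨K', hK'⟩ := hwin M'
    have hev : ∀ᶠ j in atTop, 1 - η ≤ mass K' (φ (s j)) := by
      have := (hs01.comp hs.tendsto_atTop).eventually hK'
      filter_upwards [this] with j hj
      exact tight hg (hv _) (by positivity) (h5 (s j)) hM' hj (h2 _) (h3 _) (h4 _) hM2'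
    have hlim : Tendsto (fun j => mass K' (φ (s j))) atTop (𝓝 (mass K' ψ)) :=
      tendsto_finsetSum _ (fun n _ => (hpt n).pow 2)
    exact (ge_of_tendsto hlim hev).trans (mass_le_n2 hψ1 K')
  have hn1 : n2 ψ = 1 := by
    apply le_antisymm hψ2
    by_contra hlt
    push Not at hlt
    have := htight ((1 - n2 ψ) / 2) (by linarith)
    linarith
  obtain ⟨c, hc⟩ := sol_unique hu hψ1 hu2 hψ3 hu0
  have hc2 : c ^ 2 = 1 := by
    have : ψ = fun n => c * u n := funext hc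
    rw [this, n2_const_mul, hu1, mul_one] at hn1
    exact hn1
  have hsq : ∀ n, ψ n ^ 2 = u n ^ 2 := by
    intro n
    rw [hc n, mul_pow, hc2, one_mul]
  -- contradiction
  have hclose : ∀ n, ∀ᶠ j in atTop, |φ (s j) n ^ 2 - u n ^ 2| ≤ ε := by
    intro n
    have : Tendsto (fun j => |φ (s j) n ^ 2 - u n ^ 2|) atTop (𝓝 |ψ n ^ 2 - u n ^ 2|) :=
      (((hpt n).pow 2).sub_const _).abs
    rw [hsq n, sub_self, abs_zero] at this
    exact this.eventually_le_const hε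
  have hall : ∀ᶠ j in atTop, ∀ n ∈ F, |φ (s j) n ^ 2 - u n ^ 2| ≤ ε :=
    (F.eventually_all).mpr (fun n _ => hclose n)
  have hEε : ∀ᶠ j in atTop, |e (s j) - E| ≤ ε := by
    have : Tendsto (fun j => |e (s j) - E|) atTop (𝓝 |E - E|) :=
      ((he.comp hs.tendsto_atTop).sub_const _).abs
    rw [sub_self, abs_zero] at this
    exact this.eventually_le_const hε
  obtain ⟨j, hj1, hj2⟩ := (hall.and hEε).exists
  exact hbad (s1 (s j)) ⟨e (s j), φ (s j), hj2, h2 _, h3 _, h4 _, h5 _, hj1⟩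

end Pool.Agent.Lib.MP_940d9d_mp
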