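import Pool.Agent.Lib.MP_940d9d_mp.Compact
import Pool.Agent.Lib.MP_940d9d_mp.Operator

/-!
Approximate eigenvalues of bounded symmetric operators, and the transfer to the difference
expression on the integers.
-/

open scoped ENNReal BigOperators RealInnerProductSpace
open Filter Topology

namespace Pool.Agent.Lib.MP_940d9d_mp

theorem exists_approx {H : Type*} [NormedAddCommGroup H] [InnerProductSpace ℝ H] (A : H →L[ℝ] H)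
    (hA : ∀ x y, ⟪A x, y⟫ = ⟪x, A y⟫) {δ : ℝ} {u : H} (hu : u ≠ 0) (h : ‖A u‖ ≤ δ * ‖u‖) :
    ∃ μ : ℝ, |μ| ≤ δ ∧ ∀ κ > 0, ∃ φ : H, ‖φ‖ = 1 ∧ ‖A φ - μ • φ‖ < κ := by
  have hu0 : 0 < ‖u‖ := norm_pos_iff.mpr hu
  have hδ : 0 ≤ δ := by
    by_contra hneg
    push Not at hneg
    have : δ * ‖u‖ < 0 := mul_neg_of_neg_of_pos hneg hu0
    linarith [norm_nonneg (A u)]
  set S : Set ℝ := {r | ∃ φ : H, ‖φ‖ = 1 ∧ r = ‖A φ‖ ^ 2} with hS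
  have hSb : BddBelow S := ⟨0, by rintro r ⟨φ, _, rfl⟩; positivity⟩
  have hu1 : ‖(‖u‖⁻¹ • u)‖ = 1 := by
    rw [norm_smul, norm_inv, norm_norm]; field_simp
  have hAu1 : ‖A (‖u‖⁻¹ • u)‖ ≤ δ := by
    rw [map_smul, norm_smul, norm_inv, norm_norm, inv_mul_le_iff₀ hu0]
    linarith
  have hSn : S.Nonempty := ⟨_, _, hu1, rfl⟩
  set m := sInf S with hm
  have hm0 : 0 ≤ m := le_csInf hSn (by rintro r ⟨φ, _, rfl⟩; positivity)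
  have hmδ : m ≤ δ ^ 2 := by
    refine (csInf_le hSb ⟨_, hu1, rfl⟩).trans ?_
    exact pow_le_pow_left₀ (norm_nonneg _) hAu1 2
  have hunit : ∀ φ : H, ‖φ‖ = 1 → m ≤ ‖A φ‖ ^ 2 := fun φ hφ => csInf_le hSb ⟨φ, hφ, rfl⟩
  have hscale : ∀ φ : H, m * ‖φ‖ ^ 2 ≤ ‖A φ‖ ^ 2 := by
    intro φ
    by_cases h0 : φ = 0
    · simp [h0]
    · have hp : 0 < ‖φ‖ := norm_pos_iff.mpr h0
      have h1 : ‖(‖φ‖⁻¹ • φ)‖ = 1 := by
        rw [norm_smul, norm_inv, norm_norm]; field_simp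
      have h2 := hunit _ h1
      rw [map_smul, norm_smul, norm_inv, norm_norm, mul_pow, inv_pow] at h2
      rw [inv_mul_eq_div, le_div_iff₀ (by positivity)] at h2
      exact h2
  set μ := Real.sqrt m with hμ
  have hμ2 : μ * μ = m := Real.mul_self_sqrt hm0
  have hμ0 : 0 ≤ μ := Real.sqrt_nonneg _
  have hμδ : μ ≤ δ := by
    rw [hμ, Real.sqrt_le_iff]; exact ⟨hδ, hmδ⟩
  by_contra hcon
  push Not at hcon
  obtain ⟨κ1, hκ1, h1⟩ := hcon μ (by rw [abs_of_nonneg hμ0]; exact hμδ)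
  obtain ⟨κ2, hκ2, h2⟩ := hcon (-μ) (by rw [abs_neg, abs_of_nonneg hμ0]; exact hμδ)
  have sc : ∀ (ν κ : ℝ), (∀ φ : H, ‖φ‖ = 1 → κ ≤ ‖A φ - ν • φ‖) →
      ∀ φ : H, κ * ‖φ‖ ≤ ‖A φ - ν • φ‖ := by
    intro ν κ hk φ
    by_cases h0 : φ = 0
    · simp [h0]
    · have hp : 0 < ‖φ‖ := norm_pos_iff.mpr h0
      have h1 : ‖(‖φ‖⁻¹ • φ)‖ = 1 := by
        rw [norm_smul, norm_inv, norm_norm]; field_simp
      have h2 := hk _ h1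
      have h3 : A (‖φ‖⁻¹ • φ) - ν • (‖φ‖⁻¹ • φ) = ‖φ‖⁻¹ • (A φ - ν • φ) := by
        rw [map_smul, smul_comm ν, ← smul_sub]
      rw [h3, norm_smul, norm_inv, norm_norm, inv_mul_eq_div, le_div_iff₀ hp] at h2
      exact h2
  have h1' := sc μ κ1 h1
  have h2' := sc (-μ) κ2 h2
  have hT : ∀ φ : H, κ1 * κ2 * ‖φ‖ ≤ ‖A (A φ) - m • φ‖ := by
    intro φ
    have a := h1' (A φ - (-μ) • φ)
    have b := h2' φ
    have e : A (A φ - (-μ) • φ) - μ • (A φ - (-μ) • φ) = A (A φ) - m • φ := by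
      rw [map_sub, map_smul, smul_sub, smul_smul, ← hμ2]
      simp only [neg_smul, mul_neg, sub_neg_eq_add]
      abel
    rw [e] at a
    calc κ1 * κ2 * ‖φ‖ = κ1 * (κ2 * ‖φ‖) := by ring
      _ ≤ κ1 * ‖A φ - (-μ) • φ‖ := mul_le_mul_of_nonneg_left b hκ1.le
      _ ≤ _ := a
  set C : ℝ := ‖A‖ ^ 2 + 1 with hC
  have hCpos : 0 < C := by positivity
  have hQ : ∀ φ : H, ‖A (A φ) - m • φ‖ ^ 2 ≤ C * (‖A φ‖ ^ 2 - m * ‖φ‖ ^ 2) := by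
    intro φ
    set η := A (A φ) - m • φ with hη
    have hp := hscale (φ - C⁻¹ • η)
    have i1 : ⟪A φ, A η⟫ - m * ⟪φ, η⟫ = ‖η‖ ^ 2 := by
      rw [← hA, ← real_inner_self_eq_norm_sq]
      conv_rhs => rw [hη]
      rw [← hη, inner_sub_left, inner_smul_left]
      simp
    have i2 : ‖A (φ - C⁻¹ • η)‖ ^ 2 = ‖A φ‖ ^ 2 - 2 * C⁻¹ * ⟪A φ, A η⟫ + C⁻¹ ^ 2 * ‖A η‖ ^ 2 := by
      rw [map_sub, map_smul, norm_sub_sq_real, inner_smul_right, norm_smul, mul_pow,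
        Real.norm_eq_abs, sq_abs]
      ring
    have i3 : ‖φ - C⁻¹ • η‖ ^ 2 = ‖φ‖ ^ 2 - 2 * C⁻¹ * ⟪φ, η⟫ + C⁻¹ ^ 2 * ‖η‖ ^ 2 := by
      rw [norm_sub_sq_real, inner_smul_right, norm_smul, mul_pow, Real.norm_eq_abs, sq_abs]
      ring
    have i4 : ‖A η‖ ^ 2 ≤ C * ‖η‖ ^ 2 := by
      have := A.le_opNorm η
      have h5 : ‖A η‖ ^ 2 ≤ (‖A‖ * ‖η‖) ^ 2 := pow_le_pow_left₀ (norm_nonneg _) this 2
      rw [mul_pow] at h5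
      nlinarith [sq_nonneg ‖η‖]
    rw [i2, i3] at hp
    have i5 : 0 ≤ (‖A φ‖ ^ 2 - m * ‖φ‖ ^ 2) - 2 * C⁻¹ * ‖η‖ ^ 2 + C⁻¹ ^ 2 * (C * ‖η‖ ^ 2) := by
      have h6 : 0 ≤ C⁻¹ ^ 2 * (m * ‖η‖ ^ 2) := by positivity
      have h7 : C⁻¹ ^ 2 * ‖A η‖ ^ 2 ≤ C⁻¹ ^ 2 * (C * ‖η‖ ^ 2) :=
        mul_le_mul_of_nonneg_left i4 (by positivity)
      have h8 : 2 * C⁻¹ * ⟪A φ, A η⟫ - m * (2 * C⁻¹ * ⟪φ, η⟫) = 2 * C⁻¹ * ‖η‖ ^ 2 := by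
        rw [← i1]; ring
      nlinarith
    have i6 : C⁻¹ ^ 2 * (C * ‖η‖ ^ 2) = C⁻¹ * ‖η‖ ^ 2 := by
      field_simp
    rw [i6] at i5
    have i7 : C⁻¹ * ‖η‖ ^ 2 ≤ ‖A φ‖ ^ 2 - m * ‖φ‖ ^ 2 := by linarith
    rw [inv_mul_le_iff₀ hCpos] at i7
    exact i7
  have hε : 0 < (κ1 * κ2) ^ 2 / C := by positivity
  obtain ⟨r, ⟨φ, hφ, rfl⟩, hr⟩ := exists_lt_of_csInf_lt hSn
    (show sInf S < m + (κ1 * κ2) ^ 2 / C by rw [← hm]; linarith)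
  have a := hT φ
  have b := hQ φ
  rw [hφ] at a b
  have c : (κ1 * κ2) ^ 2 ≤ ‖A (A φ) - m • φ‖ ^ 2 :=
    pow_le_pow_left₀ (by positivity) (by linarith) 2
  have d : C * (‖A φ‖ ^ 2 - m * 1 ^ 2) < C * ((κ1 * κ2) ^ 2 / C) := by
    apply mul_lt_mul_of_pos_left _ hCpos
    linarith
  have e : C * ((κ1 * κ2) ^ 2 / C) = (κ1 * κ2) ^ 2 := by field_simp
  linarith

lemma Sq.memlp {φ : ℤ → ℝ} (h : Sq φ) : Memℓp φ 2 := by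
  rw [memlp_iff]
  refine Summable.congr h (fun n => ?_)
  rw [Real.norm_eq_abs, sq_abs]

/-- A square-summable function as an element of `ℓ²(ℤ)`. -/
noncomputable def toL2 {φ : ℤ → ℝ} (h : Sq φ) : L2Z ℝ := ⟨φ, h.memlp⟩

lemma L2_sq (φ : L2Z ℝ) : Sq (φ : ℤ → ℝ) := by
  have := memlp_iff.mp (lp.memℓp φ)
  refine Summable.congr this (fun n => ?_)
  rw [Real.norm_eq_abs, sq_abs]

lemma L2_norm (φ : L2Z ℝ) : ‖φ‖ ^ 2 = n2 (φ : ℤ → ℝ) := by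
  rw [← real_inner_self_eq_norm_sq, lp.inner_eq_tsum]
  unfold n2
  congr 1; ext n
  simp [sq]

lemma exists_weyl {v : ℤ → ℝ} {B : ℝ} (hv : ∀ n, |v n| ≤ B) {E δ : ℝ} (hδ : 0 ≤ δ) {u : ℤ → ℝ}
    (hu : Sq u) (hu0 : ∃ n, u n ≠ 0) (h : n2 (dop v E u) ≤ δ ^ 2 * n2 u) :
    ∃ E' : ℝ, |E' - E| ≤ δ ∧ ∀ κ > 0, ∃ φ : ℤ → ℝ, Sq φ ∧ n2 φ = 1 ∧ n2 (dop v E' φ) < κ := by
  set A : L2Z ℝ →L[ℝ] L2Z ℝ := schr v ⟨B, hv⟩ - E • ContinuousLinearMap.id ℝ (L2Z ℝ) with hA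
  have hAapp : ∀ (φ : L2Z ℝ) (μ : ℝ), ((A φ - μ • φ : L2Z ℝ) : ℤ → ℝ) = dop v (E + μ) φ := by
    intro φ μ
    ext n
    have : ((A φ - μ • φ : L2Z ℝ) : ℤ → ℝ) n =
      (φ (n + 1) + φ (n - 1) + v n * φ n) - E * φ n - μ * φ n := rfl
    rw [this]; unfold dop; ring
  have hsymm : ∀ x y, ⟪A x, y⟫ = ⟪x, A y⟫ := by
    intro x y
    simp only [hA, _root_.sub_apply, _root_.smul_apply,
      ContinuousLinearMap.id_apply, inner_sub_left, inner_sub_right]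
    rw [schr_symm, inner_smul_left, inner_smul_right]
    simp
  have hu1 : toL2 hu ≠ 0 := by
    intro h0
    obtain ⟨m, hm⟩ := hu0
    have : ((toL2 hu : L2Z ℝ) : ℤ → ℝ) m = 0 := by rw [h0]; rfl
    exact hm this
  have hn : ‖A (toL2 hu)‖ ≤ δ * ‖toL2 hu‖ := by
    have h1 := hAapp (toL2 hu) 0
    rw [zero_smul, sub_zero, add_zero] at h1
    have h2 : ‖A (toL2 hu)‖ ^ 2 = n2 (dop v E u) := by
      rw [L2_norm, h1]; rfl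
    have h3 : ‖toL2 hu‖ ^ 2 = n2 u := L2_norm _
    have h4 : ‖A (toL2 hu)‖ ^ 2 ≤ (δ * ‖toL2 hu‖) ^ 2 := by
      rw [h2, mul_pow, h3]; exact h
    exact (pow_le_pow_iff_left₀ (norm_nonneg _) (by positivity) (by norm_num)).mp h4
  obtain ⟨μ, hμ, hw⟩ := exists_approx A hsymm hu1 hn
  refine ⟨E + μ, by simpa using hμ, ?_⟩
  intro κ hκ
  obtain ⟨φ, hφ1, hφ2⟩ := hw (Real.sqrt κ) (Real.sqrt_pos.mpr hκ)
  refine ⟨φ, L2_sq φ, ?_, ?_⟩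
  · rw [← L2_norm, hφ1]; norm_num
  · have h1 : ‖A φ - μ • φ‖ ^ 2 = n2 (dop v (E + μ) φ) := by
      rw [L2_norm, hAapp]
    rw [← h1]
    have := pow_lt_pow_left₀ hφ2 (norm_nonneg _) (n := 2) (by norm_num)
    rwa [Real.sq_sqrt hκ.le] at this

end Pool.Agent.Lib.MP_940d9d_mp
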